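import Mathlib

/-!
Families of vectors whose partitions satisfy the inequalities `d r + k ≤ d ∑ r (F i)`: existence of
weights with small values on all proper subspaces (an ear decomposition).
-/

set_option autoImplicit false

namespace Pool.Agent.T9h4.DI

open Module Finset

section

variable (k : Type) {U : Type} [Field k] [AddCommGroup U] [Module k U] {N : ℕ}

/-- the span of the vectors `T j`, `j ∈ F` -/
def sp (T : Fin N → U) (F : Finset (Fin N)) : Submodule k U := Submodule.span k (T '' F)

/-- the dimension of the span of the vectors `T j`, `j ∈ F` -/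
noncomputable def rk (T : Fin N → U) (F : Finset (Fin N)) : ℕ := finrank k (sp k T F)

/-- For every partition of the index set into `m ≥ 2` nonempty sets (the fibres of a map `φ`) the
sum of the ranks of these sets is at least the rank of all vectors plus `m / d`. -/
def Crit (d : ℕ) (T : Fin N → U) : Prop :=
  ∀ φ : Fin N → Fin N, (∃ i j, φ i ≠ φ j) →
    d * rk k T univ + (univ.image φ).card ≤
      d * ∑ i ∈ univ.image φ, rk k T (univ.filter fun j => φ j = i)

variable {k} {T : Fin N → U}

instance (F : Finset (Fin N)) : FiniteDimensional k (sp k T F) :=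
  FiniteDimensional.span_of_finite k ((F.finite_toSet).image T)

theorem mem_sp {F : Finset (Fin N)} {j : Fin N} (hj : j ∈ F) : T j ∈ sp k T F :=
  Submodule.subset_span ⟨j, hj, rfl⟩

theorem sp_le {F : Finset (Fin N)} {A : Submodule k U} (h : ∀ j ∈ F, T j ∈ A) : sp k T F ≤ A := by
  refine Submodule.span_le.2 ?_
  rintro _ ⟨j, hj, rfl⟩
  exact h j hj

theorem sp_mono {F G : Finset (Fin N)} (h : F ⊆ G) : sp k T F ≤ sp k T G :=
  sp_le fun _ hj => mem_sp (h hj)

theorem sp_union (F G : Finset (Fin N)) : sp k T (F ∪ G) = sp k T F ⊔ sp k T G := by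
  refine le_antisymm (sp_le fun j hj => ?_) (sup_le (sp_mono subset_union_left)
    (sp_mono subset_union_right))
  rcases mem_union.1 hj with h | h
  · exact Submodule.mem_sup_left (mem_sp h)
  · exact Submodule.mem_sup_right (mem_sp h)

theorem rk_sub (F G : Finset (Fin N)) :
    rk k T (F ∪ G) + rk k T (F ∩ G) ≤ rk k T F + rk k T G := by
  have h1 : finrank k (sp k T (F ∩ G)) ≤ finrank k ↥(sp k T F ⊓ sp k T G) :=
    Submodule.finrank_mono (le_inf (sp_mono inter_subset_left) (sp_mono inter_subset_right))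
  unfold rk
  rw [sp_union, ← Submodule.finrank_sup_add_finrank_inf_eq (sp k T F) (sp k T G)]
  exact Nat.add_le_add_left h1 _

theorem rk_pos (hT : ∀ j, T j ≠ 0) {F : Finset (Fin N)} (hF : F.Nonempty) : 0 < rk k T F := by
  obtain ⟨j, hj⟩ := hF
  have h1 : sp k T F ≠ ⊥ := by
    intro h0
    have h2 := mem_sp (k := k) (T := T) hj
    rw [h0, Submodule.mem_bot] at h2
    exact hT j h2
  exact Nat.pos_of_ne_zero fun h => h1 (Submodule.finrank_eq_zero.1 h)

/-- **The ear.** -/
theorem ear {d : ℕ} (hd : 0 < d) (hT : ∀ j, T j ≠ 0) (h : Crit k d T)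
    {S : Submodule k U} (hS : S ≤ sp k T univ) (hne : S ≠ sp k T univ)
    {j0 : Fin N} (hj0 : T j0 ∈ S) :
    ∃ (G : Finset (Fin N)) (c : Fin N → ℕ), (∀ j ∈ G, T j ∉ S) ∧
      (∀ F ⊆ G, F.Nonempty → (∑ j ∈ F, c j) + 1 ≤ d * rk k T F) ∧
      (∀ F ⊆ G, F ≠ G → d * finrank k S + ∑ j ∈ F, c j ≤ d * finrank k ↥(S ⊔ sp k T F)) ∧
      d * finrank k S + ∑ j ∈ G, c j = d * finrank k ↥(S ⊔ sp k T G) + 1 := by
  classical
  have hfS : FiniteDimensional k S := Submodule.finiteDimensional_of_le hS
  obtain ⟨E, hE⟩ : ∃ E : Finset (Fin N), E = univ.filter fun j => T j ∉ S := ⟨_, rfl⟩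
  have hmE : ∀ j, j ∈ E ↔ T j ∉ S := fun j => by rw [hE]; simp
  obtain ⟨e1, he1⟩ : ∃ e, e ∈ E := by
    by_contra hcon
    push Not at hcon
    refine hne (le_antisymm hS (sp_le fun j _ => ?_))
    by_contra h1
    exact hcon j ((hmE j).2 h1)
  let Q : (Fin N → ℕ) → Prop := fun c =>
    (∀ F ⊆ E, F.Nonempty → (∑ j ∈ F, c j) + 1 ≤ d * rk k T F) ∧
    ∀ F ⊆ E, d * finrank k S + ∑ j ∈ F, c j ≤ d * finrank k ↥(S ⊔ sp k T F)
  have hQ0 : Q 0 := by
    refine ⟨fun F _ hF => ?_, fun F _ => ?_⟩
    · have := Nat.mul_pos hd (rk_pos (k := k) hT hF)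
      simp only [Pi.zero_apply, sum_const_zero, zero_add]
      exact this
    · simp only [Pi.zero_apply, sum_const_zero, add_zero]
      exact Nat.mul_le_mul_left _ (Submodule.finrank_mono le_sup_left)
  obtain ⟨c, hc, hmax⟩ : ∃ c, Q c ∧ ∀ c', Q c' → ∑ j ∈ E, c' j ≤ ∑ j ∈ E, c j := by
    by_contra hcon
    push Not at hcon
    have h1 : ∀ n, ∃ c, Q c ∧ n ≤ ∑ j ∈ E, c j := by
      intro n
      induction n with
      | zero => exact ⟨0, hQ0, Nat.zero_le _⟩
      | succ n ih =>
        obtain ⟨c, hc, hn⟩ := ih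
        obtain ⟨c', hc', hlt⟩ := hcon c hc
        exact ⟨c', hc', by omega⟩
    obtain ⟨c, hc, hn⟩ := h1 (d * finrank k ↥(S ⊔ sp k T E) + 1)
    have := hc.2 E Subset.rfl
    omega
  have hEle : d * finrank k ↥(S ⊔ sp k T E) ≤ d * rk k T univ :=
    Nat.mul_le_mul_left _ (Submodule.finrank_mono (sup_le hS (sp_mono (subset_univ _))))
  obtain ⟨e, heE, he⟩ : ∃ e ∈ E, ∀ F ⊆ E, e ∈ F → (∑ j ∈ F, c j) + 2 ≤ d * rk k T F := by
    by_contra hcon
    push Not at hcon
    let tight : Finset (Fin N) → Prop := fun F => F ⊆ E ∧ (∑ j ∈ F, c j) + 1 = d * rk k T F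
    have ht1 : ∀ e ∈ E, ∃ F, tight F ∧ e ∈ F := by
      intro e he
      obtain ⟨F, hF, heF, hlt⟩ := hcon e he
      exact ⟨F, ⟨hF, by have := hc.1 F hF ⟨e, heF⟩; omega⟩, heF⟩
    have hun : ∀ F G, tight F → tight G → (F ∩ G).Nonempty → tight (F ∪ G) := by
      rintro F G ⟨hF, hF1⟩ ⟨hG, hG1⟩ hFG
      have h1 := hc.1 (F ∪ G) (union_subset hF hG) (hFG.mono (inter_subset_left.trans
        subset_union_left))
      have h2 := hc.1 (F ∩ G) (inter_subset_left.trans hF) hFG
      have h3 := sum_union_inter (f := c) (s₁ := F) (s₂ := G)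
      have h4 := Nat.mul_le_mul_left d (rk_sub (k := k) (T := T) F G)
      rw [Nat.mul_add, Nat.mul_add] at h4
      exact ⟨union_subset hF hG, by omega⟩
    have hM : ∀ e ∈ E, ∃ M, tight M ∧ e ∈ M ∧ ∀ F, tight F → e ∈ F → F ⊆ M := by
      intro e he
      obtain ⟨F0, hF0, he0⟩ := ht1 e he
      obtain ⟨M, hM, hmax⟩ := exists_max_image (univ.filter fun F => tight F ∧ e ∈ F)
        Finset.card ⟨F0, by simp only [mem_filter, mem_univ, true_and]; exact ⟨hF0, he0⟩⟩
      simp only [mem_filter, mem_univ, true_and] at hM hmax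
      refine ⟨M, hM.1, hM.2, fun F hF heF => ?_⟩
      have h1 := hmax (F ∪ M) ⟨hun F M hF hM.1 ⟨e, mem_inter.2 ⟨heF, hM.2⟩⟩,
        mem_union_left _ heF⟩
      have h2 : M = F ∪ M := eq_of_subset_of_card_le subset_union_right h1
      rw [h2]
      exact subset_union_left
    choose! M hMt heM hMmax using hM
    have hMeq : ∀ e ∈ E, ∀ e' ∈ E, ∀ g, g ∈ M e → g ∈ M e' → M e = M e' := by
      intro e he e' he' g hg hg'
      have h1 : tight (M e ∪ M e') := hun _ _ (hMt e he) (hMt e' he') ⟨g, mem_inter.2 ⟨hg, hg'⟩⟩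
      exact Subset.antisymm
        (subset_union_left.trans (hMmax e' he' _ h1 (mem_union_right _ (heM e' he'))))
        (subset_union_right.trans (hMmax e he _ h1 (mem_union_left _ (heM e he))))
    let lab : Fin N → Fin N := fun j => if hj : j ∈ E then (M j).min' ⟨j, heM j hj⟩ else j0
    have hlab1 : ∀ j ∈ E, lab j ∈ M j := by
      intro j hj
      simp only [lab, dif_pos hj]
      exact min'_mem _ _
    have hlabE : ∀ j ∈ E, lab j ∈ E := fun j hj => (hMt j hj).1 (hlab1 j hj)
    have hlab0 : ∀ j, j ∉ E → lab j = j0 := fun j hj => by simp only [lab, dif_neg hj]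
    have hj0E : j0 ∉ E := fun h1 => (hmE j0).1 h1 hj0
    have hlab2 : ∀ j ∈ E, ∀ j' ∈ E, M j = M j' → lab j = lab j' := by
      intro j hj j' hj' h1
      simp only [lab, dif_pos hj, dif_pos hj', h1]
    have hne' : ∃ i j, lab i ≠ lab j := ⟨j0, e1, by
      rw [hlab0 j0 hj0E]
      intro h1
      exact hj0E (h1 ▸ hlabE e1 he1)⟩
    have hcr := h lab hne'
    have himg : univ.image lab = insert j0 (E.image lab) := by
      ext i
      simp only [mem_image, mem_univ, true_and, mem_insert]
      constructor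
      · rintro ⟨j, rfl⟩
        by_cases hj : j ∈ E
        · exact Or.inr ⟨j, hj, rfl⟩
        · exact Or.inl (hlab0 j hj)
      · rintro (rfl | ⟨j, _, rfl⟩)
        · exact ⟨_, hlab0 _ hj0E⟩
        · exact ⟨j, rfl⟩
    have hj0i : j0 ∉ E.image lab := by
      intro h1
      obtain ⟨j, hj, h2⟩ := mem_image.1 h1
      exact hj0E (h2 ▸ hlabE j hj)
    rw [himg, card_insert_of_notMem hj0i, sum_insert hj0i] at hcr
    have hf0 : rk k T (univ.filter fun j => lab j = j0) ≤ finrank k S := by
      refine Submodule.finrank_mono (sp_le fun j hj => ?_)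
      by_contra h1
      have h2 := (mem_filter.1 hj).2
      exact hj0E (h2 ▸ hlabE j ((hmE j).2 h1))
    have hfib : ∀ i ∈ E.image lab, d * rk k T (univ.filter fun j => lab j = i) =
        (∑ j ∈ E.filter (fun j => lab j = i), c j) + 1 := by
      intro i hi
      obtain ⟨j1, hj1, rfl⟩ := mem_image.1 hi
      have h1 : (univ.filter fun j => lab j = lab j1) = M j1 := by
        ext j
        simp only [mem_filter, mem_univ, true_and]
        constructor
        · intro h2
          have hj : j ∈ E := by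
            by_contra h3
            rw [hlab0 j h3] at h2
            exact hj0E (h2 ▸ hlabE j1 hj1)
          have h3 := hMeq j hj j1 hj1 (lab j) (hlab1 j hj) (h2 ▸ hlab1 j1 hj1)
          exact h3 ▸ heM j hj
        · intro h2
          have hj : j ∈ E := (hMt j1 hj1).1 h2
          exact hlab2 j hj j1 hj1 (hMeq j hj j1 hj1 j (heM j hj) h2)
      have h2 : (E.filter fun j => lab j = lab j1) = M j1 := by
        rw [← h1]
        ext j
        simp only [mem_filter, mem_univ, true_and]
        refine ⟨fun h3 => h3.2, fun h3 => ⟨?_, h3⟩⟩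
        by_contra h4
        rw [hlab0 j h4] at h3
        exact hj0E (h3 ▸ hlabE j1 hj1)
      rw [h1, h2]
      exact (hMt j1 hj1).2.symm
    have hsum : d * ∑ i ∈ E.image lab, rk k T (univ.filter fun j => lab j = i) =
        ∑ j ∈ E, c j + (E.image lab).card := by
      rw [mul_sum, sum_congr rfl hfib, sum_add_distrib, sum_const, smul_eq_mul, mul_one,
        sum_fiberwise_of_maps_to (fun j hj => mem_image_of_mem lab hj)]
    have h1 := hc.2 E Subset.rfl
    have h2 := Nat.mul_le_mul_left d hf0
    rw [Nat.mul_add] at hcr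
    omega
  obtain ⟨c', hc'⟩ : ∃ c' : Fin N → ℕ, c' = c + Pi.single e 1 := ⟨_, rfl⟩
  have hs : ∀ F : Finset (Fin N), ∑ j ∈ F, c' j = ∑ j ∈ F, c j + if e ∈ F then 1 else 0 := by
    intro F
    rw [hc']
    simp only [Pi.add_apply, sum_add_distrib]
    congr 1
    rw [sum_pi_single']
  have hc1 : ∀ F ⊆ E, F.Nonempty → (∑ j ∈ F, c' j) + 1 ≤ d * rk k T F := by
    intro F hF hFn
    rw [hs]
    split_ifs with heF
    · exact he F hF heF
    · exact hc.1 F hF hFn
  have hex : ∃ F, F ⊆ E ∧ e ∈ F ∧ d * finrank k S + ∑ j ∈ F, c j =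
      d * finrank k ↥(S ⊔ sp k T F) := by
    by_contra hcon
    push Not at hcon
    have h1 : Q c' := by
      refine ⟨hc1, fun F hF => ?_⟩
      rw [hs]
      have h2 := hc.2 F hF
      split_ifs with heF
      · have h3 := hcon F hF heF
        omega
      · exact h2
    have h2 := hmax c' h1
    rw [hs, if_pos heE] at h2
    omega
  obtain ⟨F0, hF0⟩ := hex
  obtain ⟨G, hG, hGmin⟩ := exists_min_image
    (univ.filter fun F => F ⊆ E ∧ e ∈ F ∧ d * finrank k S + ∑ j ∈ F, c j =
      d * finrank k ↥(S ⊔ sp k T F)) Finset.card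
    ⟨F0, by simp only [mem_filter, mem_univ, true_and]; exact hF0⟩
  simp only [mem_filter, mem_univ, true_and] at hG hGmin
  obtain ⟨hGE, heG, hGeq⟩ := hG
  refine ⟨G, c', fun j hj => (hmE j).1 (hGE hj), fun F hF => hc1 F (hF.trans hGE),
    fun F hF hFG => ?_, ?_⟩
  · rw [hs]
    have h2 := hc.2 F (hF.trans hGE)
    split_ifs with heF
    · have h3 : d * finrank k S + ∑ j ∈ F, c j ≠ d * finrank k ↥(S ⊔ sp k T F) := by
        intro h4
        have h5 := hGmin F ⟨hF.trans hGE, heF, h4⟩
        exact hFG (eq_of_subset_of_card_le hF h5)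
      omega
    · exact h2
  · rw [hs, if_pos heG, ← hGeq]
    omega

open Classical in
/-- the number of the elements of `Z` in `A` -/
noncomputable def cnt (Z : Multiset U) (A : Submodule k U) : ℕ := Z.countP (· ∈ A)

open Classical in
/-- the weight of the subspace `A` -/
noncomputable def wt (T : Fin N → U) (b : Fin N → ℕ) (A : Submodule k U) : ℕ :=
  ∑ j ∈ univ.filter (fun j => T j ∈ A), b j

/-- weights `b` with numerators `Z` on the subspace `S` -/
structure Sol (d : ℕ) (T : Fin N → U) (S : Submodule k U) (b : Fin N → ℕ) (Z : Multiset U) :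
    Prop where
  supp : ∀ j, b j ≠ 0 → T j ∈ S
  mem : ∀ z ∈ Z, z ∈ S ∧ z ≠ 0
  tot : ∑ j, b j = d * finrank k S + Z.card
  cap : ∀ A ≤ S, A ≠ ⊥ → A ≠ S → wt T b A + 1 ≤ d * finrank k A + cnt Z A

theorem Sol.wt_inf {d : ℕ} {S : Submodule k U} {b : Fin N → ℕ} {Z : Multiset U}
    (h : Sol d T S b Z) (A : Submodule k U) : wt T b A = wt T b (S ⊓ A) := by
  classical
  unfold wt
  refine (sum_subset ?_ ?_).symm
  · intro j hj
    simp only [mem_filter, mem_univ, true_and] at hj ⊢
    exact hj.2
  · intro j hj hj'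
    simp only [mem_filter, mem_univ, true_and] at hj hj'
    by_contra h1
    exact hj' ⟨h.supp j h1, hj⟩

theorem Sol.cnt_inf {d : ℕ} {S : Submodule k U} {b : Fin N → ℕ} {Z : Multiset U}
    (h : Sol d T S b Z) (A : Submodule k U) : cnt Z A = cnt Z (S ⊓ A) := by
  classical
  unfold cnt
  refine Multiset.countP_congr rfl fun z hz => ?_
  simp only [Submodule.mem_inf, (h.mem z hz).1, true_and]

/-- **The extension step.** -/
theorem Sol.step {d : ℕ} (hd : 0 < d) (hT : ∀ j, T j ≠ 0) (hcrit : Crit k d T)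
    {S : Submodule k U} (hS : S ≤ sp k T univ) (hne : S ≠ sp k T univ)
    {j0 : Fin N} (hj0 : T j0 ∈ S) {b : Fin N → ℕ} {Z : Multiset U} (h : Sol d T S b Z) :
    ∃ (S' : Submodule k U) (b' : Fin N → ℕ) (Z' : Multiset U), S < S' ∧ S' ≤ sp k T univ ∧
      Sol d T S' b' Z' := by
  classical
  have hfS : FiniteDimensional k S := Submodule.finiteDimensional_of_le hS
  obtain ⟨G, c, hG, h1, h2, h3⟩ := ear hd hT hcrit hS hne hj0
  obtain ⟨S', hS'⟩ : ∃ S' : Submodule k U, S' = S ⊔ sp k T G := ⟨_, rfl⟩
  rw [← hS'] at h3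
  have hfS' : FiniteDimensional k S' := by
    rw [hS']
    infer_instance
  have hGne : G.Nonempty := by
    rcases G.eq_empty_or_nonempty with h0 | h0
    · exfalso
      rw [hS', h0] at h3
      have h4 : sp k T ∅ = ⊥ := by
        unfold sp
        simp
      rw [h4, sup_bot_eq] at h3
      simp at h3
    · exact h0
  have hSS' : S ≤ S' := hS' ▸ le_sup_left
  have hGS' : sp k T G ≤ S' := hS' ▸ le_sup_right
  obtain ⟨z, hz, hz0⟩ : ∃ z ∈ S ⊓ sp k T G, z ≠ 0 := by
    rw [← Submodule.ne_bot_iff]
    intro h0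
    have h4 := Submodule.finrank_sup_add_finrank_inf_eq S (sp k T G)
    rw [h0, finrank_bot, add_zero, ← hS'] at h4
    have h5 := h1 G Subset.rfl hGne
    unfold rk at h5
    rw [h4, Nat.mul_add] at h3
    omega
  have hfr := Submodule.finrank_mono hSS'
  refine ⟨S', fun j => b j + if j ∈ G then c j else 0, z ::ₘ Z, ?_, ?_, ?_⟩
  · refine lt_of_le_of_ne hSS' fun h0 => ?_
    obtain ⟨j, hj⟩ := hGne
    exact hG j hj (h0 ▸ hGS' (mem_sp hj))
  · rw [hS']
    exact sup_le hS (sp_mono (subset_univ _))
  · have hsumG : ∀ F : Finset (Fin N), ∑ j ∈ F, (b j + if j ∈ G then c j else 0) =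
        ∑ j ∈ F, b j + ∑ j ∈ G.filter (fun j => j ∈ F), c j := by
      intro F
      rw [sum_add_distrib]
      congr 1
      rw [← sum_filter]
      refine sum_congr ?_ fun _ _ => rfl
      ext j
      simp only [mem_filter]
      tauto
    refine ⟨fun j hj => ?_, fun y hy => ?_, ?_, fun A hA hA0 hAS => ?_⟩
    · by_cases hjG : j ∈ G
      · exact hGS' (mem_sp hjG)
      · refine hSS' (h.supp j fun h0 => hj ?_)
        rw [h0, if_neg hjG]
    · rcases Multiset.mem_cons.1 hy with rfl | hy
      · exact ⟨hSS' hz.1, hz0⟩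
      · exact ⟨hSS' (h.mem y hy).1, (h.mem y hy).2⟩
    · rw [hsumG, h.tot, Multiset.card_cons, filter_true_of_mem (fun j _ => mem_univ j)]
      omega
    · have hfA : FiniteDimensional k A := Submodule.finiteDimensional_of_le hA
      obtain ⟨F, hF⟩ : ∃ F : Finset (Fin N), F = G.filter fun j => T j ∈ A := ⟨_, rfl⟩
      have hFG : F ⊆ G := hF ▸ filter_subset _ _
      have hFA : sp k T F ≤ A := sp_le fun j hj => by
        rw [hF] at hj
        exact (mem_filter.1 hj).2
      have hwt : wt T (fun j => b j + if j ∈ G then c j else 0) A =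
          wt T b (S ⊓ A) + ∑ j ∈ F, c j := by
        rw [← h.wt_inf]
        unfold wt
        rw [hsumG, hF]
        simp
      have hcnt : cnt (z ::ₘ Z) A = cnt Z (S ⊓ A) + if z ∈ A then 1 else 0 := by
        rw [← h.cnt_inf]
        unfold cnt
        rw [Multiset.countP_cons]
      rw [hwt, hcnt]
      have hdim := Submodule.finrank_sup_add_finrank_inf_eq S A
      have hle : finrank k ↥(S ⊔ sp k T F) ≤ finrank k ↥(S ⊔ A) :=
        Submodule.finrank_mono (sup_le_sup_left hFA S)
      have hle' := Nat.mul_le_mul_left d hle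
      have hdim' : d * finrank k ↥(S ⊔ A) + d * finrank k ↥(S ⊓ A) =
          d * finrank k S + d * finrank k A := by
        rw [← Nat.mul_add, ← Nat.mul_add, hdim]
      by_cases hinf : S ⊓ A = ⊥
      · have hw0 : wt T b (S ⊓ A) = 0 := by
          rw [hinf]
          unfold wt
          refine sum_eq_zero fun j hj => ?_
          simp only [mem_filter, mem_univ, true_and, Submodule.mem_bot] at hj
          exact absurd hj (hT j)
        have hA1 : 0 < finrank k A := Nat.pos_of_ne_zero fun h0 => hA0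
          (Submodule.finrank_eq_zero.1 h0)
        have hA2 := Nat.mul_pos hd hA1
        rw [hw0]
        rcases F.eq_empty_or_nonempty with h0 | h0
        · rw [h0, sum_empty]
          omega
        · have h4 := h1 F hFG h0
          have h5 : d * rk k T F ≤ d * finrank k A :=
            Nat.mul_le_mul_left _ (Submodule.finrank_mono hFA)
          omega
      by_cases hSA : S ⊓ A = S
      · have hSA' : S ≤ A := inf_eq_left.1 hSA
        have hFne : F ≠ G := by
          rintro h0
          refine hAS (le_antisymm hA ?_)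
          rw [hS']
          exact sup_le hSA' (h0 ▸ hFA)
        have hw : wt T b (S ⊓ A) = ∑ j, b j := by
          rw [hSA]
          unfold wt
          refine sum_subset (filter_subset _ _) fun j _ hj => ?_
          simp only [mem_filter, mem_univ, true_and] at hj
          by_contra h4
          exact hj (h.supp j h4)
        have hcn : cnt Z (S ⊓ A) = Z.card := by
          rw [hSA]
          unfold cnt
          rw [Multiset.countP_eq_card]
          exact fun y hy => (h.mem y hy).1
        rw [hw, hcn, h.tot, if_pos (hSA' hz.1)]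
        have h4 := h2 F hFG hFne
        rw [hSA] at hdim'
        omega
      · have h4 := h.cap (S ⊓ A) inf_le_left hinf hSA
        by_cases hFne : F = G
        · have hzA : z ∈ A := hFA (hFne ▸ hz.2)
          rw [if_pos hzA, hFne]
          rw [hFne, ← hS'] at hle'
          omega
        · have h5 := h2 F hFG hFne
          omega

/-- **Existence.** -/
theorem exists_sol {d : ℕ} (hd : 0 < d) (hT : ∀ j, T j ≠ 0) (hcrit : Crit k d T) (j0 : Fin N) :
    ∃ (b : Fin N → ℕ) (Z : Multiset U), Sol d T (sp k T univ) b Z := by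
  classical
  have key : ∀ n : ℕ, ∀ (S : Submodule k U) (b : Fin N → ℕ) (Z : Multiset U),
      rk k T univ - finrank k S = n → S ≤ sp k T univ → T j0 ∈ S → Sol d T S b Z →
      ∃ (b : Fin N → ℕ) (Z : Multiset U), Sol d T (sp k T univ) b Z := by
    intro n
    induction n using Nat.strong_induction_on with
    | _ n ih =>
      intro S b Z hn hS hj0 h
      by_cases hne : S = sp k T univ
      · exact ⟨b, Z, hne ▸ h⟩
      · obtain ⟨S', b', Z', h1, h2, h3⟩ := h.step hd hT hcrit hS hne hj0
        have hf' : FiniteDimensional k S' := Submodule.finiteDimensional_of_le h2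
        have h4 := Submodule.finrank_lt_finrank_of_lt h1
        have h5 : finrank k S' ≤ rk k T univ := Submodule.finrank_mono h2
        exact ih _ (by omega) S' b' Z' rfl h2 (h1.le hj0) h3
  refine key _ (k ∙ T j0) (Pi.single j0 d) 0 rfl ?_ (Submodule.mem_span_singleton_self _) ?_
  · rw [Submodule.span_singleton_le_iff_mem]
    exact mem_sp (mem_univ _)
  · refine ⟨fun j hj => ?_, fun z hz => absurd hz (Multiset.notMem_zero z), ?_, ?_⟩
    · have : j = j0 := by
        by_contra h0
        exact hj (Pi.single_eq_of_ne h0 _)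
      rw [this]
      exact Submodule.mem_span_singleton_self _
    · rw [Multiset.card_zero, add_zero, finrank_span_singleton (hT j0), mul_one]
      simp
    · intro A hA hA0 hA1
      exfalso
      have hf : FiniteDimensional k A := Submodule.finiteDimensional_of_le hA
      have h1 := Submodule.finrank_lt_finrank_of_lt (lt_of_le_of_ne hA hA1)
      rw [finrank_span_singleton (hT j0)] at h1
      exact hA0 (Submodule.finrank_eq_zero.1 (by omega))

end

end Pool.Agent.T9h4.DI
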