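import Pool.Agent.T9h4.DI.Pos
import Pool.Agent.W602.GT.Uni

/-!
The dimension of the components of an intersection of diagonal hypersurfaces.
-/

set_option autoImplicit false

open FF Module Finset Pool.Agent.W602.GT

namespace Pool.Agent.T9h4.DI

section root

variable {K : Type} [Field K] [CharZero K]

/-- roots of power series -/
theorem exists_root {d : ℕ} (hd : 0 < d) (v : K) : ∃ g : PowerSeries K,
    PowerSeries.constantCoeff g = 1 ∧ g ^ d = 1 + PowerSeries.C v * PowerSeries.X := by
  have h1 : (PowerSeries.binomialSeries K (1 / d : ℚ)) ^ d = 1 + PowerSeries.X := by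
    have h2 : ∀ m : ℕ, (PowerSeries.binomialSeries K (1 / d : ℚ)) ^ m =
        PowerSeries.binomialSeries K ((m : ℚ) * (1 / d)) := by
      intro m
      induction m with
      | zero => rw [pow_zero, Nat.cast_zero, zero_mul, PowerSeries.binomialSeries_zero]
      | succ m ih =>
        rw [pow_succ, ih, ← PowerSeries.binomialSeries_add]
        congr 1
        push_cast
        ring
    rw [h2, mul_one_div_cancel (by exact_mod_cast hd.ne')]
    have h3 := PowerSeries.binomialSeries_nat (R := ℚ) (A := K) 1
    rw [Nat.cast_one, pow_one] at h3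
    exact h3
  refine ⟨PowerSeries.rescale v (PowerSeries.binomialSeries K (1 / d : ℚ)), ?_, ?_⟩
  · rw [← PowerSeries.coeff_zero_eq_constantCoeff_apply, PowerSeries.coeff_rescale, pow_zero,
      one_mul, PowerSeries.coeff_zero_eq_constantCoeff_apply,
      PowerSeries.binomialSeries_constantCoeff]
  · rw [← map_pow, h1, map_add, map_one, PowerSeries.rescale_X]

end root

section hom

open MvPolynomial

variable {k : Type} [Field k] {n m : ℕ}

theorem aeval_scale {ι : Type} [Fintype ι] {L : Type} [Field L] [Algebra k L]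
    {G : MvPolynomial ι k} {e : ℕ} (hG : G.IsHomogeneous e) (c : L) (y : ι → L) :
    aeval (fun i => c * y i) G = c ^ e * aeval y G := by
  rw [aeval_def, aeval_def, eval₂_eq', eval₂_eq', Finset.mul_sum]
  refine Finset.sum_congr rfl fun a ha => ?_
  have h1 : ∑ i, a i = e := by
    have h2 := hG (mem_support_iff.1 ha)
    rw [← h2]
    simp [Finsupp.weight_apply, Finsupp.sum_fintype]
  have h2 : ∏ i, (c * y i) ^ a i = c ^ e * ∏ i, y i ^ a i := by
    rw [← h1, ← Finset.prod_pow_eq_pow_sum, ← Finset.prod_mul_distrib]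
    exact Finset.prod_congr rfl fun i _ => by rw [mul_pow]
  rw [h2]
  ring

/-- the form in the `d`-th powers of the variables `a l` which comes from a polynomial -/
noncomputable def hform (d : ℕ) (a0 : Fin (n + 1)) (a : Fin m → Fin (n + 1))
    (P : MvPolynomial (Fin m) k) : MvPolynomial (Fin (n + 1)) k :=
  ∑ i ∈ range (P.totalDegree + 1), (X a0 ^ d) ^ (P.totalDegree - i) *
    aeval (fun l => (X (a l) ^ d : MvPolynomial (Fin (n + 1)) k)) (homogeneousComponent i P)

theorem hform_form (d : ℕ) (a0 : Fin (n + 1)) (a : Fin m → Fin (n + 1))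
    (P : MvPolynomial (Fin m) k) : IsForm (hform d a0 a P) := by
  refine ⟨d * P.totalDegree, ?_⟩
  unfold hform
  refine IsHomogeneous.sum _ _ _ fun i hi => ?_
  rw [Finset.mem_range] at hi
  have h1 : ((X a0 ^ d : MvPolynomial (Fin (n + 1)) k) ^ (P.totalDegree - i)).IsHomogeneous
      (d * (P.totalDegree - i)) := by
    have h2 := ((isHomogeneous_X k a0).pow d).pow (P.totalDegree - i)
    rwa [one_mul] at h2
  have h2 : (aeval (fun l => (X (a l) ^ d : MvPolynomial (Fin (n + 1)) k))
      (homogeneousComponent i P)).IsHomogeneous (d * i) := by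
    have h3 := (homogeneousComponent_isHomogeneous i P).aeval
      (fun l => (X (a l) ^ d : MvPolynomial (Fin (n + 1)) k)) (n := d) fun l => by
        have h4 := (isHomogeneous_X k (a l)).pow d
        rwa [one_mul] at h4
    exact h3
  have h3 := h1.mul h2
  have h4 : d * (P.totalDegree - i) + d * i = d * P.totalDegree := by
    rw [← Nat.mul_add]
    congr 1
    omega
  rwa [h4] at h3

theorem hform_val {L : Type} [Field L] [Algebra k L] {y : Fin (n + 1) → L} (d : ℕ)
    {a0 : Fin (n + 1)} (h0 : y a0 ≠ 0) (a : Fin m → Fin (n + 1)) (P : MvPolynomial (Fin m) k) :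
    val y (hform d a0 a P) = (y a0 ^ d) ^ P.totalDegree *
      aeval (fun l => y (a l) ^ d / y a0 ^ d) P := by
  have h1 : y a0 ^ d ≠ 0 := pow_ne_zero _ h0
  have h2 : ∀ i ∈ range (P.totalDegree + 1), val y ((X a0 ^ d) ^ (P.totalDegree - i) *
      aeval (fun l => (X (a l) ^ d : MvPolynomial (Fin (n + 1)) k)) (homogeneousComponent i P)) =
      (y a0 ^ d) ^ P.totalDegree *
        aeval (fun l => y (a l) ^ d / y a0 ^ d) (homogeneousComponent i P) := by
    intro i hi
    rw [Finset.mem_range] at hi
    unfold W602.GT.val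
    rw [map_mul, map_pow, map_pow, aeval_X]
    have h3 : aeval y (aeval (fun l => (X (a l) ^ d : MvPolynomial (Fin (n + 1)) k))
        (homogeneousComponent i P)) = aeval (fun l => y (a l) ^ d) (homogeneousComponent i P) := by
      rw [← AlgHom.comp_apply, comp_aeval]
      congr 2
      funext l
      rw [map_pow, aeval_X]
    rw [h3]
    have h4 : (fun l => y (a l) ^ d) = fun l => y a0 ^ d * (y (a l) ^ d / y a0 ^ d) := by
      funext l
      field_simp
    rw [h4, aeval_scale (homogeneousComponent_isHomogeneous i P), ← mul_assoc, ← pow_add]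
    congr 2
    omega
  unfold hform
  have h3 : val y (∑ i ∈ range (P.totalDegree + 1), (X a0 ^ d) ^ (P.totalDegree - i) *
      aeval (fun l => (X (a l) ^ d : MvPolynomial (Fin (n + 1)) k)) (homogeneousComponent i P)) =
      ∑ i ∈ range (P.totalDegree + 1), val y ((X a0 ^ d) ^ (P.totalDegree - i) *
      aeval (fun l => (X (a l) ^ d : MvPolynomial (Fin (n + 1)) k)) (homogeneousComponent i P)) :=
    map_sum _ _ _
  rw [h3, sum_congr rfl h2, ← mul_sum, ← map_sum]
  congr 2
  exact sum_homogeneousComponent P

end hom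

end Pool.Agent.T9h4.DI
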