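import Pool.Agent.T9h4.DI.Dim

/-!
The dimension of the components of an intersection of diagonal hypersurfaces.
-/

set_option autoImplicit false

open FF Module Finset Pool.Agent.W602.GT

namespace Pool.Agent.T9h4.DI

/-- The form is diagonal of degree `d`: a linear combination of the `d`-th powers of the
variables. -/
def IsDiag {k : Type} [Field k] {n : ℕ} (d : ℕ) (F : MvPolynomial (Fin (n + 1)) k) : Prop :=
  ∃ a : Fin (n + 1) → k, F = ∑ j, MvPolynomial.C (a j) * MvPolynomial.X j ^ d

variable {k K : Type} [Field k] [CharZero k] [Field K] [Algebra k K] {n d w : ℕ}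
variable {ι : Type}

omit [CharZero k] in
theorem diag_val {L : Type} [Field L] [Algebra k L] (y : Fin (n + 1) → L) (a : Fin (n + 1) → k) :
    W602.GT.val y (∑ j, MvPolynomial.C (a j) * MvPolynomial.X j ^ d) =
      ∑ j, algebraMap k L (a j) * y j ^ d := by
  unfold W602.GT.val
  simp only [map_sum, map_mul, map_pow, MvPolynomial.aeval_C, MvPolynomial.aeval_X]

/-- the deformation of the generic point -/
theorem deform [IsAlgClosed k] (hd : 0 < d) {F : ι → MvPolynomial (Fin (n + 1)) k}
    (hF : ∀ e, IsDiag d (F e)) {y : Fin (n + 1) → K} (hmem : ∀ i, W602.GT.val y (F i) = 0)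
    (hne : y ≠ 0) (hcomp : IsComponent F y) {κ : Type} [Fintype κ] {u : κ → K}
    (hu : LinearIndependent k u) {c : Fin (n + 1) → κ → k}
    (hc : ∀ j, y j ^ d = ∑ l, algebraMap k K (c j l) * u l) (v : κ → K) :
    ∃ y' : Fin (n + 1) → PowerSeries K,
      (∀ j, PowerSeries.constantCoeff (y' j) = y j) ∧
      (∀ j, y' j ^ d = PowerSeries.C (y j ^ d) +
        PowerSeries.C (∑ l, algebraMap k K (c j l) * v l) * PowerSeries.X) ∧
      ∀ G : MvPolynomial (Fin (n + 1)) k, IsForm G → W602.GT.val y G = 0 →
        W602.GT.val (K := FractionRing (PowerSeries K))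
          (fun j => algebraMap (PowerSeries K) (FractionRing (PowerSeries K)) (y' j)) G = 0 := by
  classical
  have hK : CharZero K := charZero_of_injective_algebraMap (algebraMap k K).injective
  obtain ⟨q, hq⟩ : ∃ q : Fin (n + 1) → K, q = fun j => ∑ l, algebraMap k K (c j l) * v l :=
    ⟨_, rfl⟩
  have hg : ∀ j, ∃ g : PowerSeries K, PowerSeries.constantCoeff g = 1 ∧
      g ^ d = 1 + PowerSeries.C (q j / y j ^ d) * PowerSeries.X := fun j => exists_root hd _
  choose g hg1 hg2 using hg
  let y' : Fin (n + 1) → PowerSeries K := fun j => PowerSeries.C (y j) * g j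
  have hy1 : ∀ j, PowerSeries.constantCoeff (y' j) = y j := fun j => by
    simp only [y', map_mul, PowerSeries.constantCoeff_C, hg1, mul_one]
  have hy0 : ∀ j, y j = 0 → y' j = 0 := fun j hj => by
    simp only [y', hj, map_zero, zero_mul]
  have hy2 : ∀ j, y j ≠ 0 → y' j ^ d = PowerSeries.C (y j ^ d) +
      PowerSeries.C (q j) * PowerSeries.X := by
    intro j hj
    simp only [y', mul_pow, hg2]
    rw [mul_add, mul_one, ← map_pow, ← mul_assoc, ← map_mul, mul_div_cancel₀ _ (pow_ne_zero _ hj)]
  have hq0 : ∀ j, y j = 0 → q j = 0 := by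
    intro j hj
    have h1 := hc j
    rw [hj, zero_pow hd.ne'] at h1
    have h2 : ∀ l, c j l = 0 := by
      refine Fintype.linearIndependent_iff.1 hu (c j) ?_
      rw [h1]
      exact sum_congr rfl fun l _ => Algebra.smul_def _ _
    rw [hq]
    simp only [h2, map_zero, zero_mul, sum_const_zero]
  have hy3 : ∀ j, y' j ^ d = PowerSeries.C (y j ^ d) + PowerSeries.C (q j) * PowerSeries.X := by
    intro j
    by_cases hj : y j = 0
    · rw [hy0 j hj, hq0 j hj, hj, zero_pow hd.ne', zero_pow hd.ne', map_zero, zero_mul,
        add_zero]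
    · exact hy2 j hj
  refine ⟨y', hy1, fun j => by rw [hy3, hq], ?_⟩
  obtain ⟨L, hL⟩ : ∃ L : Fin (n + 1) → FractionRing (PowerSeries K), L = fun j =>
    algebraMap (PowerSeries K) (FractionRing (PowerSeries K)) (y' j) := ⟨_, rfl⟩
  rw [← hL]
  have hval : ∀ G : MvPolynomial (Fin (n + 1)) k, W602.GT.val L G =
      algebraMap (PowerSeries K) (FractionRing (PowerSeries K)) (MvPolynomial.aeval y' G) := by
    intro G
    rw [hL]
    exact MvPolynomial.aeval_algebraMap_apply _ _ _
  have hspec0 : ∀ G : MvPolynomial (Fin (n + 1)) k,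
      PowerSeries.constantCoeff (MvPolynomial.aeval y' G) = W602.GT.val y G := by
    intro G
    let φ : PowerSeries K →ₐ[k] K :=
      { (PowerSeries.constantCoeff : PowerSeries K →+* K) with
        commutes' := fun r => by
          change PowerSeries.constantCoeff (algebraMap k (PowerSeries K) r) = _
          rw [IsScalarTower.algebraMap_apply k K (PowerSeries K)]
          exact PowerSeries.constantCoeff_C _ }
    have h1 : φ (MvPolynomial.aeval y' G) = MvPolynomial.aeval (fun j => φ (y' j)) G := by
      rw [← MvPolynomial.comp_aeval_apply]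
    change φ (MvPolynomial.aeval y' G) = MvPolynomial.aeval y G
    rw [h1]
    congr 2
    funext j
    exact hy1 j
  have hinj := IsFractionRing.injective (PowerSeries K) (FractionRing (PowerSeries K))
  have hspec : ∀ G : MvPolynomial (Fin (n + 1)) k, IsForm G → W602.GT.val L G = 0 →
      W602.GT.val y G = 0 := by
    intro G _ h1
    rw [hval] at h1
    have h2 := hinj (h1.trans (map_zero _).symm)
    rw [← hspec0, h2, map_zero]
  have hLne : L ≠ 0 := by
    intro h0
    apply hne
    funext j
    have h1 := congrFun h0 j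
    rw [hL] at h1
    have h2 := hinj (h1.trans (map_zero _).symm)
    rw [← hy1, h2, map_zero]
    rfl
  have hLF : ∀ e, W602.GT.val L (F e) = 0 := by
    intro e
    rw [hval]
    obtain ⟨a, ha⟩ := hF e
    have h1 := hmem e
    rw [ha, diag_val] at h1
    have h2 : ∀ l, ∑ j, a j * c j l = 0 := by
      refine Fintype.linearIndependent_iff.1 hu _ ?_
      rw [← h1]
      simp only [hc, Algebra.smul_def, map_sum, map_mul, mul_sum, sum_mul]
      rw [sum_comm]
      exact sum_congr rfl fun j _ => sum_congr rfl fun l _ => by ring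
    have h3 : ∑ j, algebraMap k K (a j) * q j = 0 := by
      rw [hq]
      simp only [mul_sum]
      rw [sum_comm]
      have h4 : ∀ l, ∑ j, algebraMap k K (a j) * (algebraMap k K (c j l) * v l) = 0 := by
        intro l
        have h5 := congrArg (algebraMap k K) (h2 l)
        rw [map_sum, map_zero] at h5
        simp only [map_mul] at h5
        have h6 : ∑ j, algebraMap k K (a j) * (algebraMap k K (c j l) * v l) =
            (∑ j, algebraMap k K (a j) * algebraMap k K (c j l)) * v l := by
          rw [sum_mul]
          exact sum_congr rfl fun j _ => by ring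
        rw [h6, h5, zero_mul]
      exact sum_eq_zero fun l _ => h4 l
    have h4 : MvPolynomial.aeval y' (F e) = 0 := by
      rw [ha]
      simp only [map_sum, map_mul, map_pow, MvPolynomial.aeval_C, MvPolynomial.aeval_X, hy3]
      have h5 : ∀ r : k, algebraMap k (PowerSeries K) r = PowerSeries.C (algebraMap k K r) :=
        fun r => IsScalarTower.algebraMap_apply k K (PowerSeries K) r
      have h6 : ∀ j, algebraMap k (PowerSeries K) (a j) *
          (PowerSeries.C (y j ^ d) + PowerSeries.C (q j) * PowerSeries.X) =
          PowerSeries.C (algebraMap k K (a j) * y j ^ d) +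
            PowerSeries.C (algebraMap k K (a j) * q j) * PowerSeries.X := by
        intro j
        rw [h5, map_mul, map_mul]
        ring
      have h7 : ∀ j, algebraMap k (PowerSeries K) (a j) *
          (PowerSeries.C (y j) ^ d + PowerSeries.C (q j) * PowerSeries.X) =
          algebraMap k (PowerSeries K) (a j) *
          (PowerSeries.C (y j ^ d) + PowerSeries.C (q j) * PowerSeries.X) := by
        intro j
        rw [map_pow]
      simp only [h7, h6, sum_add_distrib]
      rw [← sum_mul, ← map_sum, ← map_sum, h1, h3, map_zero, zero_mul, add_zero]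
    rw [h4, map_zero]
  intro G hG h0
  exact (same_relations hcomp hLne hLF hspec G hG).1 h0

end Pool.Agent.T9h4.DI
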