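import Pool.Agent.T9h4.DI.Dim2

/-!
The dimension of the components of an intersection of diagonal hypersurfaces.
-/

set_option autoImplicit false

open FF Module Finset Pool.Agent.W602.GT

namespace Pool.Agent.T9h4.DI

variable {k K : Type} [Field k] [CharZero k] [IsAlgClosed k] [Field K] [Algebra k K] {n d w : ℕ}
variable {ι : Type}

/-- **The dimension of a component.** -/
theorem rk_of_comp (hd : 0 < d) {F : ι → MvPolynomial (Fin (n + 1)) k}
    (hF : ∀ e, IsDiag d (F e)) {y : Fin (n + 1) → K} (hy : SubVar F K w y)
    (hcomp : IsComponent F y) : rk k (fun j => y j ^ d) univ = w + 1 := by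
  classical
  have hK : CharZero K := charZero_of_injective_algebraMap (algebraMap k K).injective
  obtain ⟨j0, hj0⟩ := Function.ne_iff.1 hy.ne
  have hj0' : y j0 ≠ 0 := hj0
  obtain ⟨κ, a', ha', hsp', hli'⟩ := exists_linearIndependent' k (fun j => y j ^ d)
  have hκ : Finite κ := Finite.of_injective a' ha'
  have := Fintype.ofFinite κ
  have hspu : sp k (fun j => y j ^ d) univ = Submodule.span k (Set.range fun j => y j ^ d) := by
    unfold sp
    rw [coe_univ, Set.image_univ]
  have hrk : rk k (fun j => y j ^ d) univ = Fintype.card κ := by
    unfold rk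
    rw [hspu, ← hsp', finrank_span_eq_card hli']
  obtain ⟨β⟩ : Nonempty κ := by
    by_contra hcon
    rw [not_nonempty_iff] at hcon
    have h1 : y j0 ^ d ∈ Submodule.span k (Set.range fun j => y j ^ d) :=
      Submodule.subset_span ⟨_, rfl⟩
    rw [← hsp', Set.range_eq_empty, Submodule.span_empty, Submodule.mem_bot] at h1
    exact pow_ne_zero _ hj0' h1
  obtain ⟨m, hm⟩ : ∃ m, Fintype.card κ = m + 1 := ⟨Fintype.card κ - 1, by
    have := Fintype.card_pos_iff.2 ⟨β⟩
    omega⟩
  let φ : Unit ⊕ Fin m ≃ κ := Fintype.equivOfCardEq (by
    rw [hm, Fintype.card_sum, Fintype.card_unique, Fintype.card_fin, add_comm])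
  obtain ⟨a, ha⟩ : ∃ a : Unit ⊕ Fin m → Fin (n + 1), a = a' ∘ φ := ⟨_, rfl⟩
  obtain ⟨u, hud⟩ : ∃ u : Unit ⊕ Fin m → K, u = fun l => y (a l) ^ d := ⟨_, rfl⟩
  have huc : u = ((fun j => y j ^ d) ∘ a') ∘ φ := by
    rw [hud, ha]
    rfl
  have hu : LinearIndependent k u := by
    rw [huc]
    exact hli'.comp _ φ.injective
  have hspan : Submodule.span k (Set.range u) = Submodule.span k (Set.range fun j => y j ^ d) := by
    rw [huc, φ.surjective.range_comp, hsp']
  have hu0 : ∀ l, u l ≠ 0 := fun l => hu.ne_zero l
  have hya : ∀ l, y (a l) ≠ 0 := by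
    intro l h0
    apply hu0 l
    rw [hud]
    simp only [h0, zero_pow hd.ne']
  have hc : ∀ j, ∃ c : Unit ⊕ Fin m → k, y j ^ d = ∑ l, algebraMap k K (c l) * u l := by
    intro j
    have h1 : y j ^ d ∈ Submodule.span k (Set.range u) := by
      rw [hspan]
      exact Submodule.subset_span ⟨j, rfl⟩
    obtain ⟨c, hc⟩ := (Submodule.mem_span_range_iff_exists_fun k).1 h1
    exact ⟨c, by rw [← hc]; exact sum_congr rfl fun l _ => Algebra.smul_def _ _⟩
  choose c hc using hc
  have hca : ∀ l l', c (a l) l' = if l' = l then 1 else 0 := by
    intro l l'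
    have h1 := hc (a l)
    have h2 : ∑ l', (c (a l) l' - if l' = l then 1 else 0) • u l' = 0 := by
      have e1 : ∑ l', (c (a l) l' - if l' = l then 1 else 0) • u l' =
          ∑ l', c (a l) l' • u l' - u l := by
        simp only [sub_smul, sum_sub_distrib, ite_smul, one_smul, zero_smul, sum_ite_eq', mem_univ,
          if_true]
      have e2 : ∑ l', c (a l) l' • u l' = y (a l) ^ d := by
        rw [h1]
        exact sum_congr rfl fun _ _ => Algebra.smul_def _ _
      rw [e1, e2, hud, sub_self]
    have h3 := Fintype.linearIndependent_iff.1 hu _ h2 l'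
    exact sub_eq_zero.1 h3
  -- independence
  have hind : AlgebraicIndependent k fun l : Fin m => u (Sum.inr l) / u (Sum.inl ()) := by
    rw [algebraicIndependent_iff_injective_aeval, injective_iff_map_eq_zero]
    intro P hP
    have hPs : ∀ s : Fin m → K, MvPolynomial.aeval s P = 0 := by
      intro s
      obtain ⟨y', hy1, hy2, hy3⟩ := deform hd hF hy.mem hy.ne hcomp hu hc
        (fun l => Sum.elim (fun _ => 0) (fun l => u (Sum.inl ()) * s l - u (Sum.inr l)) l)
      have hG := hy3 (hform d (a (Sum.inl ())) (fun l => a (Sum.inr l)) P) (hform_form _ _ _ _)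
        (by
          rw [hform_val d (hya _)]
          have h1 : (fun l : Fin m => y (a (Sum.inr l)) ^ d / y (a (Sum.inl ())) ^ d) =
              fun l => u (Sum.inr l) / u (Sum.inl ()) := by rw [hud]
          rw [h1, hP, mul_zero])
      have hinj := IsFractionRing.injective (PowerSeries K) (FractionRing (PowerSeries K))
      have hva : ∀ l, y' (a l) ^ d = PowerSeries.C (u l) +
          PowerSeries.C (Sum.elim (fun _ => 0)
            (fun l => u (Sum.inl ()) * s l - u (Sum.inr l)) l) * PowerSeries.X := by
        intro l
        have h1 : y (a l) ^ d = u l := by rw [hud]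
        rw [hy2, h1]
        congr 3
        simp only [hca, apply_ite (algebraMap k K), map_one, map_zero, ite_mul, one_mul, zero_mul,
          sum_ite_eq', mem_univ, if_true]
      have hy0 : y' (a (Sum.inl ())) ^ d = PowerSeries.C (u (Sum.inl ())) := by
        rw [hva]
        simp
      have hne : algebraMap (PowerSeries K) (FractionRing (PowerSeries K))
          (y' (a (Sum.inl ()))) ≠ 0 := by
        intro h0
        have h1 := hinj (h0.trans (map_zero _).symm)
        have h2 := hy1 (a (Sum.inl ()))
        rw [h1, map_zero] at h2
        exact hya _ h2.symm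
      rw [hform_val d hne] at hG
      have hG' := (mul_eq_zero.1 hG).resolve_left (pow_ne_zero _ (pow_ne_zero _ hne))
      let R : Fin m → Polynomial K := fun l => Polynomial.C (u (Sum.inr l) / u (Sum.inl ())) +
        Polynomial.C (s l - u (Sum.inr l) / u (Sum.inl ())) * Polynomial.X
      have h1 : ∀ l : Fin m, algebraMap (PowerSeries K) (FractionRing (PowerSeries K))
          (y' (a (Sum.inr l))) ^ d / algebraMap (PowerSeries K) (FractionRing (PowerSeries K))
          (y' (a (Sum.inl ()))) ^ d =
          algebraMap (PowerSeries K) (FractionRing (PowerSeries K)) (R l : PowerSeries K) := by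
        intro l
        have h2 : algebraMap (PowerSeries K) (FractionRing (PowerSeries K))
          (y' (a (Sum.inl ()))) ^ d ≠ 0 := pow_ne_zero _ hne
        rw [div_eq_iff h2, ← map_pow, ← map_pow, ← map_mul, hva, hy0]
        congr 1
        simp only [R, Polynomial.coe_add, Polynomial.coe_mul, Polynomial.coe_C, Polynomial.coe_X,
          Sum.elim_inr]
        rw [add_mul, ← map_mul, div_mul_cancel₀ _ (hu0 _)]
        congr 1
        rw [mul_right_comm, ← map_mul]
        congr 2
        have := hu0 (Sum.inl ())
        field_simp
      simp only [h1] at hG'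
      have hG2 := (MvPolynomial.aeval_algebraMap_apply (FractionRing (PowerSeries K))
        (fun l => (R l : PowerSeries K)) P).symm.trans hG'
      have h2 := hinj (hG2.trans (map_zero _).symm)
      have h3 : MvPolynomial.aeval (fun l => (R l : PowerSeries K)) P =
          ((MvPolynomial.aeval R P : Polynomial K) : PowerSeries K) := by
        have h4 : ∀ Q : MvPolynomial (Fin m) k,
            MvPolynomial.aeval (fun l => (R l : PowerSeries K)) Q =
            ((MvPolynomial.aeval R Q : Polynomial K) : PowerSeries K) := by
          intro Q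
          induction Q using MvPolynomial.induction_on with
          | C r =>
            rw [MvPolynomial.aeval_C, MvPolynomial.aeval_C,
              IsScalarTower.algebraMap_apply k K (PowerSeries K),
              IsScalarTower.algebraMap_apply k K (Polynomial K)]
            exact (Polynomial.coe_C _).symm
          | add p q hp hq => rw [map_add, map_add, hp, hq, Polynomial.coe_add]
          | mul_X p i hp =>
            rw [map_mul, map_mul, hp, MvPolynomial.aeval_X, MvPolynomial.aeval_X,
              Polynomial.coe_mul]
        exact h4 P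
      rw [h3] at h2
      have h4 : (MvPolynomial.aeval R P : Polynomial K) = 0 := by
        apply Polynomial.coe_injective (R := K)
        rw [h2, Polynomial.coe_zero]
      have h5 : Polynomial.aeval (R := K) (1 : K) (MvPolynomial.aeval R P : Polynomial K) = 0 := by
        rw [h4, map_zero]
      have h6 : Polynomial.aeval (R := K) (1 : K) (MvPolynomial.aeval R P : Polynomial K) =
          MvPolynomial.aeval s P := by
        have h7 : ((Polynomial.aeval (R := K) (1 : K)).restrictScalars k)
            (MvPolynomial.aeval R P : Polynomial K) =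
            MvPolynomial.aeval (fun l => ((Polynomial.aeval (R := K) (1 : K)).restrictScalars k)
              (R l)) P := by
          rw [← MvPolynomial.comp_aeval_apply]
        have h8 : (fun l => ((Polynomial.aeval (R := K) (1 : K)).restrictScalars k) (R l)) = s := by
          funext l
          simp only [R, AlgHom.restrictScalars_apply, map_add, map_mul, Polynomial.aeval_C,
            Polynomial.aeval_X, Algebra.algebraMap_self, RingHom.id_apply, mul_one]
          ring
        rw [h8] at h7
        exact h7
      rw [← h6, h5]
    have hmap : MvPolynomial.map (algebraMap k K) P = 0 := by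
      refine MvPolynomial.funext fun s => ?_
      rw [MvPolynomial.eval_map, map_zero]
      exact hPs s
    exact MvPolynomial.map_injective _ (algebraMap k K).injective (hmap.trans (map_zero _).symm)
  -- algebraicity
  have halg : Algebra.IsAlgebraic
      (Algebra.adjoin k (Set.range fun l : Fin m => u (Sum.inr l) / u (Sum.inl ()))) K := by
    let A := Algebra.adjoin k (Set.range fun l : Fin m => u (Sum.inr l) / u (Sum.inl ()))
    have h0 : ∀ j, y j ^ d / u (Sum.inl ()) ∈ A := by
      intro j
      rw [hc j, sum_div]
      refine A.sum_mem fun l _ => ?_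
      rw [mul_div_assoc]
      refine A.mul_mem (A.algebraMap_mem _) ?_
      rcases l with l | l
      · rw [div_self (hu0 _)]
        exact A.one_mem
      · exact Algebra.subset_adjoin ⟨l, rfl⟩
    have h1 : ∀ z ∈ coords k y, IsAlgebraic A z := by
      intro z hz
      unfold coords at hz
      induction hz using IntermediateField.adjoin_induction with
      | mem x hx =>
        obtain ⟨i, j, hj, rfl⟩ := hx
        have h2 : IsAlgebraic A ((y i / y j) ^ d) := by
          have h3 : (y i / y j) ^ d = (y i ^ d / u (Sum.inl ())) * (y j ^ d / u (Sum.inl ()))⁻¹ := by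
            have := hu0 (Sum.inl ())
            field_simp
            rw [← mul_pow, div_mul_cancel₀ _ hj]
          rw [h3]
          exact (isAlgebraic_algebraMap (⟨_, h0 i⟩ : A)).mul
            (IsAlgebraic.inv (isAlgebraic_algebraMap (⟨_, h0 j⟩ : A)))
        exact h2.of_pow hd
      | algebraMap c => exact isAlgebraic_algebraMap (algebraMap k A c)
      | add a b _ _ ha hb => exact ha.add hb
      | inv a _ ha => exact ha.inv
      | mul a b _ _ ha hb => exact ha.mul hb
    constructor
    intro z
    refine h1 z ?_
    rw [hy.gen]
    exact IntermediateField.mem_top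
  have htb : IsTranscendenceBasis k fun l : Fin m => u (Sum.inr l) / u (Sum.inl ()) :=
    hind.isTranscendenceBasis_iff_isAlgebraic.2 halg
  have h1 := htb.cardinalMk_eq_trdeg
  rw [hy.dim, Cardinal.mk_fin] at h1
  have h2 : m = w := by exact_mod_cast h1
  rw [hrk, hm, h2]

end Pool.Agent.T9h4.DI
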