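import Pool.Agent.T9h4.DI.Comb
import Pool.Agent.W602.GT.Loc

/-!
The filtration of a finite dimensional space of functions by the order at a place.
-/

set_option autoImplicit false

namespace Pool.Agent.T9h4.DI

open FF Module Finset Pool.Agent.W603.LV

section

variable {k K : Type} [Field k] [Field K] [Algebra k K]

/-- the elements of order at least `a` -/
def lev (P : Place k K) (U : Submodule k K) (a : ℤ) : Submodule k K where
  carrier := {u | u ∈ U ∧ Ge P a u}
  add_mem' := fun h1 h2 => ⟨U.add_mem h1.1 h2.1, h1.2.add h2.2⟩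
  zero_mem' := ⟨U.zero_mem, Ge.zero⟩
  smul_mem' := fun c x h => ⟨U.smul_mem c h.1, by
    have := (Ge.const (P := P) c).mul h.2
    rw [zero_add] at this
    rwa [Algebra.smul_def]⟩

theorem lev_le (P : Place k K) (U : Submodule k K) (a : ℤ) : lev P U a ≤ U := fun _ h => h.1

theorem ge_span {P : Place k K} {a : ℤ} {s : Set K} (h : ∀ u ∈ s, Ge P a u) {u : K}
    (hu : u ∈ Submodule.span k s) : Ge P a u := by
  induction hu using Submodule.span_induction with
  | mem x hx => exact h x hx
  | zero => exact Ge.zero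
  | add x y _ _ hx hy => exact hx.add hy
  | smul c x _ hx =>
    have := (Ge.const (P := P) c).mul hx
    rw [zero_add] at this
    rwa [Algebra.smul_def]

theorem exists_lower (P : Place k K) (U : Submodule k K) [FiniteDimensional k U] :
    ∃ m : ℤ, ∀ u ∈ U, Ge P m u := by
  obtain ⟨s, hs⟩ := (Submodule.fg_iff_finiteDimensional U).2 inferInstance
  obtain ⟨m, hm⟩ := (s.finite_toSet.image P.ord).bddBelow
  refine ⟨m, fun u hu => ?_⟩
  rw [← hs] at hu
  exact ge_span (fun v hv => Or.inr (hm ⟨v, hv, rfl⟩)) hu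

/-- a basis which is adapted to the filtration -/
theorem adapted (P : Place k K) : ∀ (n : ℕ) (U : Submodule k K), FiniteDimensional k U →
    finrank k U = n → ∃ (ι : Type) (_ : Fintype ι) (e : ι → K), LinearIndependent k e ∧
      Submodule.span k (Set.range e) = U ∧
      ∀ a : ℤ, finrank k (lev P U a) ≤ (univ.filter fun i => a ≤ P.ord (e i)).card := by
  classical
  intro n
  induction n using Nat.strong_induction_on with
  | _ n ih =>
    intro U hU hn
    by_cases hU0 : U = ⊥
    · refine ⟨Empty, inferInstance, Empty.elim, linearIndependent_empty_type, ?_, fun a => ?_⟩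
      · rw [hU0, Set.range_eq_empty, Submodule.span_empty]
      · have h1 : lev P U a = ⊥ := by
          rw [eq_bot_iff, ← hU0]
          exact lev_le P U a
        rw [h1, finrank_bot]
        exact Nat.zero_le _
    obtain ⟨m, hm⟩ := exists_lower P U
    obtain ⟨u0, hu0, hu00⟩ := (Submodule.ne_bot_iff _).1 hU0
    obtain ⟨m0, ⟨u1, hu1, hu10, hu1m⟩, hm0⟩ := Int.exists_least_of_bdd
      (P := fun z => ∃ u ∈ U, u ≠ 0 ∧ P.ord u = z)
      ⟨m, fun z ⟨u, hu, hu0, hz⟩ => hz ▸ (hm u hu).resolve_left hu0⟩ ⟨_, u0, hu0, hu00, rfl⟩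
    have hmin : ∀ u ∈ U, u ≠ 0 → m0 ≤ P.ord u := fun u hu h0 => hm0 _ ⟨u, hu, h0, rfl⟩
    obtain ⟨U', hU'⟩ : ∃ U', U' = lev P U (m0 + 1) := ⟨_, rfl⟩
    have hle : U' ≤ U := hU' ▸ lev_le P U _
    have hlt : U' < U := by
      refine lt_of_le_of_ne hle fun h0 => ?_
      have h1 : u1 ∈ U' := h0 ▸ hu1
      rw [hU'] at h1
      have h2 := h1.2.resolve_left hu10
      omega
    have hf' : FiniteDimensional k U' := Submodule.finiteDimensional_of_le hle
    obtain ⟨ι', i', e', h1, h2, h3⟩ := ih _ (hn ▸ Submodule.finrank_lt_finrank_of_lt hlt) U' hf' rfl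
    obtain ⟨W0, hW0⟩ := exists_isCompl U'
    obtain ⟨W, hW⟩ : ∃ W, W = W0 ⊓ U := ⟨_, rfl⟩
    have hWU : W ≤ U := hW ▸ inf_le_right
    have hdis : Disjoint W U' := by
      rw [hW]
      exact (hW0.disjoint.symm).mono_left inf_le_left
    have hsup : W ⊔ U' = U := by
      rw [hW, sup_comm, ← sup_inf_assoc_of_le W0 hle, hW0.sup_eq_top, top_inf_eq]
    have hfW : FiniteDimensional k W := Submodule.finiteDimensional_of_le hWU
    have hordW : ∀ u ∈ W, u ≠ 0 → P.ord u = m0 := by
      intro u hu h0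
      refine le_antisymm ?_ (hmin u (hWU hu) h0)
      by_contra h4
      have h5 : u ∈ U' := by
        rw [hU']
        exact ⟨hWU hu, Or.inr (by omega)⟩
      exact h0 ((Submodule.disjoint_def.1 hdis) u hu h5)
    let b := Module.finBasis k W
    have hb1 : LinearIndependent k (fun i => (b i : K)) :=
      b.linearIndependent.map' W.subtype W.ker_subtype
    have hb2 : Submodule.span k (Set.range fun i => (b i : K)) = W := by
      have h4 : (Set.range fun i => (b i : K)) = W.subtype '' (Set.range b) := by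
        rw [← Set.range_comp]
        rfl
      rw [h4, Submodule.span_image, b.span_eq, Submodule.map_subtype_top]
    refine ⟨Fin (finrank k W) ⊕ ι', inferInstance, Sum.elim (fun i => (b i : K)) e', ?_, ?_,
      fun a => ?_⟩
    · refine LinearIndependent.sum_type hb1 h1 ?_
      rw [hb2, h2]
      exact hdis
    · rw [Set.Sum.elim_range, Submodule.span_union, hb2, h2, hsup]
    · rcases le_or_gt a m0 with ha | ha
      · have h4 : ∀ i, a ≤ P.ord (Sum.elim (fun i => (b i : K)) e' i) := by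
          rintro (i | i)
          · change a ≤ P.ord (b i : K)
            rw [hordW _ (b i).2 (hb1.ne_zero i)]
            exact ha
          · have h5 : e' i ∈ U := hle (h2 ▸ Submodule.subset_span ⟨i, rfl⟩)
            exact ha.trans (hmin _ h5 (h1.ne_zero i))
        rw [filter_true_of_mem (fun i _ => h4 i), card_univ, Fintype.card_sum, Fintype.card_fin]
        have h5 : finrank k U' = Fintype.card ι' := by
          rw [← h2]
          exact finrank_span_eq_card h1
        have h7 := Submodule.finrank_sup_add_finrank_inf_eq W U'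
        rw [hsup, hdis.eq_bot, finrank_bot, add_zero] at h7
        rw [← h5, ← h7]
        exact Submodule.finrank_mono (lev_le P U a)
      · have h4 : lev P U a = lev P U' a := by
          refine le_antisymm (fun u hu => ⟨?_, hu.2⟩) fun u hu => ⟨hle hu.1, hu.2⟩
          rw [hU']
          exact ⟨hu.1, hu.2.mono (by omega)⟩
        rw [h4]
        refine (h3 a).trans ?_
        rw [← card_map ⟨Sum.inr, Sum.inr_injective⟩]
        refine card_le_card fun i hi => ?_
        obtain ⟨l, hl, rfl⟩ := mem_map.1 hi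
        simp only [mem_filter, mem_univ, true_and] at hl ⊢
        exact hl

theorem lay {m0 M v : ℤ} (h1 : m0 ≤ v) (h2 : v ≤ M) :
    ∑ a ∈ Ioc m0 M, (if a ≤ v then (1 : ℤ) else 0) = v - m0 := by
  rw [← sum_filter, sum_const, nsmul_eq_mul, mul_one]
  have h3 : (Ioc m0 M).filter (fun a => a ≤ v) = Ioc m0 v := by
    ext a
    simp only [mem_filter, mem_Ioc]
    omega
  rw [h3, Int.card_Ioc]
  omega

variable {N : ℕ}

variable (k) in
/-- weights with the margin `ε` for the proper subspaces -/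
structure Wts (D ε : ℕ) (T : Fin N → K) (b : Fin N → ℕ) (Z : Multiset K) : Prop where
  mem : ∀ z ∈ Z, z ∈ sp k T univ ∧ z ≠ 0
  tot : ∑ j, b j = D * rk k T univ + Z.card
  cap : ∀ A ≤ sp k T univ, A ≠ ⊥ → A ≠ sp k T univ → wt T b A + ε ≤ D * finrank k A + cnt Z A

theorem Sol.wts {D : ℕ} {T : Fin N → K} {b : Fin N → ℕ} {Z : Multiset K}
    (h : Sol D T (sp k T univ) b Z) : Wts k D 1 T b Z := ⟨h.mem, h.tot, h.cap⟩

/-- **The estimate of the orders.** -/
theorem level_ineq (P : Place k K) {d : ℕ} {x T : Fin N → K}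
    (hx : ∀ j, x j ≠ 0) (hT : ∀ j, T j = x j ^ d) {D ε : ℕ} {b : Fin N → ℕ} {Z : Multiset K}
    (h : Wts k D ε T b Z) {ι : Type} [Fintype ι] {e : ι → K}
    (he : LinearIndependent k e) (hspan : Submodule.span k (Set.range e) = sp k T univ)
    (hlev : ∀ a : ℤ, finrank k (lev P (sp k T univ) a) ≤
      (univ.filter fun i => a ≤ P.ord (e i)).card) (i0 : ι)
    (hi0 : ∀ i, P.ord (e i0) ≤ P.ord (e i)) :
    ∃ M : ℤ, P.ord (e i0) ≤ M ∧ (∀ i, P.ord (e i) ≤ M) ∧
      (∀ j, P.ord (e i0) ≤ P.ord (T j) ∧ P.ord (T j) ≤ M) ∧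
      ∑ j, (b j : ℤ) * P.ord (T j) + ε * (M - P.ord (e i0)) ≤
        D * ∑ i, P.ord (e i) + (Z.map P.ord).sum ∧
      ((∀ j, P.ord (T j) = P.ord (e i0)) →
        ∑ j, (b j : ℤ) * P.ord (T j) + D * (M - P.ord (e i0)) ≤
          D * ∑ i, P.ord (e i) + (Z.map P.ord).sum) ∧
      ((∀ j, P.ord (T j) = P.ord (e i0)) ∨ (d : ℤ) ≤ M - P.ord (e i0)) := by
  classical
  have hT0 : ∀ j, T j ≠ 0 := fun j => by
    rw [hT]
    exact pow_ne_zero _ (hx j)
  have he0 : ∀ i, e i ≠ 0 := fun i => he.ne_zero i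
  obtain ⟨m0, hm0⟩ : ∃ m0, m0 = P.ord (e i0) := ⟨_, rfl⟩
  rw [← hm0] at hi0 ⊢
  obtain ⟨U, hU⟩ : ∃ U, U = sp k T univ := ⟨_, rfl⟩
  obtain ⟨hmemZ, htotZ, hcap⟩ := h
  unfold rk at htotZ
  rw [← hU] at hmemZ htotZ hcap hspan hlev
  have hfU : FiniteDimensional k U := hU ▸ inferInstance
  have heU : ∀ i, e i ∈ U := fun i => hspan ▸ Submodule.subset_span ⟨i, rfl⟩
  have hTU : ∀ j, T j ∈ U := fun j => hU ▸ mem_sp (mem_univ j)
  have hmin : ∀ u ∈ U, u ≠ 0 → m0 ≤ P.ord u := by
    intro u hu hu0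
    rw [← hspan] at hu
    refine (ge_span ?_ hu).resolve_left hu0
    rintro _ ⟨i, rfl⟩
    exact Or.inr (hi0 i)
  obtain ⟨i1, -, hi1⟩ := exists_max_image (univ : Finset ι) (fun i => P.ord (e i)) ⟨i0, mem_univ _⟩
  obtain ⟨M, hM⟩ : ∃ M, M = P.ord (e i1) := ⟨_, rfl⟩
  have hiM : ∀ i, P.ord (e i) ≤ M := fun i => hM ▸ hi1 i (mem_univ i)
  have hmax : ∀ u ∈ U, u ≠ 0 → P.ord u ≤ M := by
    intro u hu hu0
    by_contra hcon
    have h1 := hlev (M + 1)
    have h2 : (univ.filter fun i => M + 1 ≤ P.ord (e i)) = ∅ := by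
      refine filter_eq_empty_iff.2 fun i _ h3 => ?_
      have := hiM i
      omega
    have hfl : FiniteDimensional k (lev P U (M + 1)) :=
      Submodule.finiteDimensional_of_le (lev_le P U _)
    rw [h2, card_empty, Nat.le_zero, Submodule.finrank_eq_zero] at h1
    have h3 : u ∈ lev P U (M + 1) := ⟨hu, Or.inr (by omega)⟩
    rw [h1, Submodule.mem_bot] at h3
    exact hu0 h3
  have hcardU : finrank k U = Fintype.card ι := by
    rw [← hspan]
    exact finrank_span_eq_card he
  have hm0M : m0 ≤ M := by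
    rw [hm0]
    exact hiM i0
  -- the levels
  have hmem : ∀ u ∈ U, u ≠ 0 → ∀ a, u ∈ lev P U a ↔ a ≤ P.ord u := fun u hu hu0 a =>
    ⟨fun h1 => h1.2.resolve_left hu0, fun h1 => ⟨hu, Or.inr h1⟩⟩
  have s1 : ∑ a ∈ Ioc m0 M, (wt T b (lev P U a) : ℤ) = ∑ j, (b j : ℤ) * (P.ord (T j) - m0) := by
    have h1 : ∀ a, (wt T b (lev P U a) : ℤ) = ∑ j, (b j : ℤ) * (if a ≤ P.ord (T j) then 1 else 0) := by
      intro a
      unfold wt
      rw [sum_filter]
      push_cast
      refine sum_congr rfl fun j _ => ?_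
      rw [mul_ite, mul_one, mul_zero]
      by_cases h2 : a ≤ P.ord (T j)
      · rw [if_pos h2, if_pos ((hmem _ (hTU j) (hT0 j) a).2 h2)]
      · rw [if_neg h2, if_neg fun h3 => h2 ((hmem _ (hTU j) (hT0 j) a).1 h3)]
    simp only [h1]
    rw [sum_comm]
    refine sum_congr rfl fun j _ => ?_
    rw [← mul_sum, lay (hmin _ (hTU j) (hT0 j)) (hmax _ (hTU j) (hT0 j))]
  have s2 : ∑ a ∈ Ioc m0 M, (cnt Z (lev P U a) : ℤ) = (Z.map P.ord).sum - m0 * Z.card := by
    clear hcap htotZ s1
    induction Z using Multiset.induction_on with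
    | empty => simp [cnt]
    | cons z Z ih =>
      have h1 : ∀ a, (cnt (z ::ₘ Z) (lev P U a) : ℤ) = cnt Z (lev P U a) +
          if a ≤ P.ord z then 1 else 0 := by
        intro a
        have hz := hmemZ z (Multiset.mem_cons_self z Z)
        unfold cnt
        rw [Multiset.countP_cons]
        push_cast
        congr 1
        by_cases h2 : a ≤ P.ord z
        · rw [if_pos h2, if_pos ((hmem _ hz.1 hz.2 a).2 h2)]
        · rw [if_neg h2, if_neg fun h3 => h2 ((hmem _ hz.1 hz.2 a).1 h3)]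
      have hz := hmemZ z (Multiset.mem_cons_self z Z)
      simp only [h1]
      rw [sum_add_distrib, ih (fun y hy => hmemZ y (Multiset.mem_cons_of_mem hy)),
        lay (hmin _ hz.1 hz.2) (hmax _ hz.1 hz.2), Multiset.map_cons, Multiset.sum_cons,
        Multiset.card_cons]
      push_cast
      ring
  have s3 : ∑ a ∈ Ioc m0 M, (finrank k (lev P U a) : ℤ) ≤ ∑ i, (P.ord (e i) - m0) := by
    have h1 : ∀ a, (finrank k (lev P U a) : ℤ) ≤ ∑ i, (if a ≤ P.ord (e i) then (1 : ℤ) else 0) := by
      intro a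
      rw [← sum_filter, sum_const, nsmul_eq_mul, mul_one]
      exact_mod_cast hlev a
    refine (sum_le_sum fun a _ => h1 a).trans (le_of_eq ?_)
    rw [sum_comm]
    exact sum_congr rfl fun i _ => lay (hi0 i) (hiM i)
  have htot : (∑ j, (b j : ℤ)) = D * Fintype.card ι + Z.card := by
    rw [hcardU] at htotZ
    exact_mod_cast htotZ
  have e1 : ∑ j, (b j : ℤ) * (P.ord (T j) - m0) =
      ∑ j, (b j : ℤ) * P.ord (T j) - m0 * (D * Fintype.card ι + Z.card) := by
    rw [← htot, mul_sum, ← sum_sub_distrib]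
    exact sum_congr rfl fun j _ => by ring
  have e2 : ∑ i, (P.ord (e i) - m0) = ∑ i, P.ord (e i) - m0 * Fintype.card ι := by
    rw [sum_sub_distrib, sum_const, card_univ, nsmul_eq_mul]
    ring
  have hD' : (0 : ℤ) ≤ D := Int.natCast_nonneg D
  have h3 := mul_le_mul_of_nonneg_left s3 hD'
  rw [e2] at h3
  -- the levels are proper
  have hproper : ∀ a ∈ Ioc m0 M, lev P U a ≠ ⊥ ∧ lev P U a ≠ U := by
    intro a ha
    rw [mem_Ioc] at ha
    constructor
    · intro h0
      have h2 : e i1 ∈ lev P U a := (hmem _ (heU i1) (he0 i1) a).2 (by rw [← hM]; exact ha.2)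
      rw [h0, Submodule.mem_bot] at h2
      exact he0 i1 h2
    · intro h0
      have h2 : e i0 ∈ lev P U a := by
        rw [h0]
        exact heU i0
      have h3 := (hmem _ (heU i0) (he0 i0) a).1 h2
      omega
  have hcard : ∀ c : ℤ, ∑ _a ∈ Ioc m0 M, c = c * (M - m0) := by
    intro c
    rw [sum_const, Int.card_Ioc, nsmul_eq_mul, Int.toNat_of_nonneg (by omega)]
    ring
  refine ⟨M, hm0M, hiM, fun j => ⟨hmin _ (hTU j) (hT0 j), hmax _ (hTU j) (hT0 j)⟩, ?_, ?_, ?_⟩
  · have hlow : ∀ a ∈ Ioc m0 M, (wt T b (lev P U a) : ℤ) + ε ≤ D * finrank k (lev P U a) +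
        cnt Z (lev P U a) := by
      intro a ha
      have h1 := hcap (lev P U a) (lev_le P U a) (hproper a ha).1 (hproper a ha).2
      exact_mod_cast h1
    have hsum := sum_le_sum hlow
    rw [sum_add_distrib, sum_add_distrib, s1, s2, ← mul_sum, hcard, e1] at hsum
    nlinarith
  · intro hTm
    have hlow' : ∀ a ∈ Ioc m0 M, (wt T b (lev P U a) : ℤ) + D ≤ D * finrank k (lev P U a) +
        cnt Z (lev P U a) := by
      intro a ha
      have h4 : wt T b (lev P U a) = 0 := by
        unfold wt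
        rw [filter_eq_empty_iff.2, sum_empty]
        intro j _ h5
        have h6 := (hmem _ (hTU j) (hT0 j) a).1 h5
        rw [hTm j] at h6
        rw [mem_Ioc] at ha
        omega
      have hf : FiniteDimensional k (lev P U a) := Submodule.finiteDimensional_of_le (lev_le P U a)
      have h5 : 1 ≤ finrank k (lev P U a) := by
        refine Nat.pos_of_ne_zero fun h0 => ?_
        rw [Submodule.finrank_eq_zero] at h0
        exact (hproper a ha).1 h0
      have h6 := Nat.mul_le_mul_left D h5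
      rw [h4]
      push_cast
      have h7 : (D : ℤ) * 1 ≤ D * finrank k (lev P U a) := by exact_mod_cast h6
      have h8 : (0 : ℤ) ≤ cnt Z (lev P U a) := Int.natCast_nonneg _
      linarith
    have hsum' := sum_le_sum hlow'
    rw [sum_add_distrib, sum_add_distrib, s1, s2, ← mul_sum, hcard, e1] at hsum'
    nlinarith
  · rw [or_iff_not_imp_left]
    intro hTm
    obtain ⟨j', hj'⟩ : ∃ j', P.ord (T j') = m0 := by
      by_contra hcon
      push Not at hcon
      have h5 : U ≤ lev P U (m0 + 1) := by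
        conv_lhs => rw [hU]
        refine sp_le fun j _ => (hmem _ (hTU j) (hT0 j) _).2 ?_
        have := hmin _ (hTU j) (hT0 j)
        have := hcon j
        omega
      have h6 := (hmem _ (heU i0) (he0 i0) _).1 (h5 (heU i0))
      omega
    push Not at hTm
    obtain ⟨j, hj⟩ := hTm
    have h5 := hmin _ (hTU j) (hT0 j)
    have h6 := hmax _ (hTU j) (hT0 j)
    rw [hT, P.ord_pow] at hj h5 h6
    rw [hT, P.ord_pow] at hj'
    have hd' : (0 : ℤ) ≤ d := Int.natCast_nonneg d
    have h7 : P.ord (x j') + 1 ≤ P.ord (x j) := by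
      by_contra h8
      have h9 : P.ord (x j) ≤ P.ord (x j') := by omega
      have h10 := mul_le_mul_of_nonneg_left h9 hd'
      rw [hj'] at h10
      exact hj (le_antisymm h10 h5)
    have h8 := mul_le_mul_of_nonneg_left h7 hd'
    rw [mul_add, hj', mul_one] at h8
    linarith

end

end Pool.Agent.T9h4.DI
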