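import Pool.Agent.T9h4.DI.Filt
import Pool.Agent.Y191.Form
import Pool.Agent.T9h4.NT.Final

/-!
The pluricanonical form which is attached to the weights.
-/

set_option autoImplicit false

open FF Module Finset Matrix Pool.Agent.W603.LV Pool.Agent.W602.GT Pool.Agent.Y191

namespace Pool.Agent.T9h4.DI

section loc

variable {k K : Type} [Field k] [Field K] [Algebra k K] {w : ℕ}

/-- the determinant of the coordinates whose first one is `1` -/
theorem vw_one (D : Fin w → Derivation k K K) (y : Unit ⊕ Fin w → K) (hy : y (Sum.inl ()) = 1) :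
    (vw D y).det = (Matrix.of fun i j => D i (y (Sum.inr j))).det := by
  have h1 : vw D y = fromBlocks (1 : Matrix Unit Unit K)
      (Matrix.of fun _ j => y (Sum.inr j)) (0 : Matrix (Fin w) Unit K)
      (Matrix.of fun i j => D i (y (Sum.inr j))) := by
    refine Matrix.ext fun i j => ?_
    rcases i with i | i <;> rcases j with j | j
    · change y (Sum.inl ()) = (1 : Matrix Unit Unit K) () ()
      rw [hy, Matrix.one_apply_eq]
    · rfl
    · change D i (y (Sum.inl ())) = 0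
      rw [hy, Derivation.map_one_eq_zero]
    · rfl
  rw [h1, det_fromBlocks_zero₂₁, det_one, one_mul]

theorem vw_norm (D : Fin w → Derivation k K K) {e : Unit ⊕ Fin w → K} (he : e (Sum.inl ()) ≠ 0) :
    (vw D e).det = e (Sum.inl ()) ^ (w + 1) *
      (Matrix.of fun i j => D i (e (Sum.inr j) / e (Sum.inl ()))).det := by
  have h1 : e = fun j => e (Sum.inl ()) * (e j / e (Sum.inl ())) := by
    funext j
    field_simp
  conv_lhs => rw [h1]
  rw [vw_scale, det_mul, sc_det, vw_one D _ (div_self he)]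

variable [CharZero k]

theorem vw_ge {P : Place k K} {D : Fin w → Derivation k K K} (hD : ∀ i, DerReg P (D i))
    {e : Unit ⊕ Fin w → K} (he : ∀ i, e i ≠ 0) :
    Ge P (∑ i, P.ord (e i) - 1) (vw D e).det := by
  rw [vw_norm D (he _)]
  obtain ⟨y, hy⟩ : ∃ y : Fin w → K, y = fun j => e (Sum.inr j) / e (Sum.inl ()) := ⟨_, rfl⟩
  have hy0 : ∀ j, y j ≠ 0 := fun j => by
    rw [hy]
    exact div_ne_zero (he _) (he _)
  have h1 : (Matrix.of fun i j => D i (e (Sum.inr j) / e (Sum.inl ()))).det =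
      (∏ j, y j) * (Matrix.of fun i j => D i (y j) / y j).det := by
    rw [← det_mul_row]
    congr 1
    refine Matrix.ext fun i j => ?_
    simp only [Matrix.of_apply, hy]
    have := he (Sum.inr j)
    have := he (Sum.inl ())
    field_simp
  rw [h1]
  have h2 : Ge P ((w + 1 : ℕ) * P.ord (e (Sum.inl ()))) (e (Sum.inl ()) ^ (w + 1)) := by
    right
    rw [P.ord_pow]
  have h3 : Ge P (∑ j, P.ord (y j)) (∏ j, y j) := by
    right
    rw [ord_prod P _ _ hy0]
  refine (h2.mul (h3.mul (det_log D hD y hy0))).mono (le_of_eq ?_)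
  have h4 : ∀ j, P.ord (y j) = P.ord (e (Sum.inr j)) - P.ord (e (Sum.inl ())) := fun j => by
    rw [hy]
    exact P.ord_div (he _) (he _)
  simp only [h4, Fintype.sum_sum_type, sum_sub_distrib, sum_const, card_univ, Fintype.card_fin,
    nsmul_eq_mul, Fintype.sum_unique]
  push_cast
  ring

omit [CharZero k] in
theorem vw_ge0 {P : Place k K} {D : Fin w → Derivation k K K} (hD : ∀ i, DerReg P (D i))
    {e : Unit ⊕ Fin w → K} (he : ∀ i, e i ≠ 0) (h : ∀ i, P.ord (e i) = P.ord (e (Sum.inl ()))) :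
    Ge P (∑ i, P.ord (e i)) (vw D e).det := by
  rw [vw_norm D (he _)]
  have h2 : Ge P ((w + 1 : ℕ) * P.ord (e (Sum.inl ()))) (e (Sum.inl ()) ^ (w + 1)) := by
    right
    rw [P.ord_pow]
  have h3 : Ge P 0 (Matrix.of fun i j => D i (e (Sum.inr j) / e (Sum.inl ()))).det := by
    refine ge_det0 P fun i j => hD i _ (Or.inr ?_)
    rw [P.ord_div (he _) (he _), h (Sum.inr j), sub_self]
  refine (h2.mul h3).mono (le_of_eq ?_)
  simp only [h, sum_const, card_univ, nsmul_eq_mul, Fintype.card_sum, Fintype.card_unique,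
    Fintype.card_fin, add_zero]
  push_cast
  ring

omit [CharZero k] in
theorem vw_span {P : Place k K} {D : Fin w → Derivation k K K} {e u : Unit ⊕ Fin w → K} {n : ℤ}
    (hu : ∀ j, u j ∈ Submodule.span k (Set.range e)) (h : Ge P n (vw D e).det) :
    Ge P n (vw D u).det := by
  have h1 : ∀ j, ∃ ℓ : Unit ⊕ Fin w → k, u j = lf ℓ e := by
    intro j
    obtain ⟨c, hc⟩ := (Submodule.mem_span_range_iff_exists_fun k).1 (hu j)
    refine ⟨c, ?_⟩
    rw [← hc]
    unfold lf
    exact sum_congr rfl fun i _ => Algebra.smul_def _ _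
  choose Λ hΛ using h1
  have h2 : u = fun j => lf (Matrix.of Λ j) e := by
    funext j
    exact hΛ j
  rw [h2, ← vw_coord, det_mul, det_transpose]
  have h3 : ((Matrix.of Λ).map (algebraMap k K)).det = algebraMap k K (Matrix.of Λ).det :=
    (RingHom.map_det (algebraMap k K) _).symm
  rw [h3]
  have := h.mul (Ge.const (P := P) (Matrix.of Λ).det)
  rwa [add_zero] at this

variable {N : ℕ}

/-- the form -/
noncomputable def fm (Dg : ℕ) (T : Fin N → K) (b : Fin N → ℕ) (Z : Multiset K)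
    (u : Unit ⊕ Fin w → K) (D : Fin w → Derivation k K K) : K :=
  (vw D u).det ^ Dg * (Z.prod / ∏ j, T j ^ b j)

omit [CharZero k] in
theorem fm_pluri (Dg : ℕ) (T : Fin N → K) (b : Fin N → ℕ) (Z : Multiset K)
    (u : Unit ⊕ Fin w → K) : IsPluri (k := k) Dg (fm Dg T b Z u) := by
  intro M D
  unfold fm
  rw [vw_lin, det_mul, bm, det_fromBlocks_zero₂₁, det_one, one_mul, mul_pow, mul_assoc]

omit [CharZero k] in
theorem ord_mprod (P : Place k K) {Z : Multiset K} (hZ : ∀ z ∈ Z, z ≠ 0) :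
    Z.prod ≠ 0 ∧ P.ord Z.prod = (Z.map P.ord).sum := by
  induction Z using Multiset.induction_on with
  | empty => simp [P.ord_one]
  | cons z Z ih =>
    obtain ⟨h1, h2⟩ := ih fun y hy => hZ y (Multiset.mem_cons_of_mem hy)
    have h3 := hZ z (Multiset.mem_cons_self z Z)
    refine ⟨by rw [Multiset.prod_cons]; exact mul_ne_zero h3 h1, ?_⟩
    rw [Multiset.prod_cons, P.ord_mul h3 h1, h2, Multiset.map_cons, Multiset.sum_cons]

/-- **The order of the form.** -/
theorem fm_ge (P : Place k K) {d : ℕ} {x T : Fin N → K}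
    (hx : ∀ j, x j ≠ 0) (hT : ∀ j, T j = x j ^ d) {Dg ε : ℕ} {b : Fin N → ℕ} {Z : Multiset K}
    (h : Wts k Dg ε T b Z) (hrk : rk k T univ = w + 1) {u : Unit ⊕ Fin w → K}
    (hu : ∀ j, u j ∈ sp k T univ) {D : Fin w → Derivation k K K} (hD : ∀ i, DerReg P (D i)) :
    ∃ y : ℤ, 0 ≤ y ∧ (∀ i j, P.ord (T i) ≤ P.ord (T j) + y) ∧
      (((∀ i j, P.ord (T i) = P.ord (T j)) ∧ Ge P 0 (fm Dg T b Z u D)) ∨
        ((d : ℤ) ≤ y ∧ Ge P (ε * y - Dg) (fm Dg T b Z u D))) := by
  classical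
  have hT0 : ∀ j, T j ≠ 0 := fun j => by
    rw [hT]
    exact pow_ne_zero _ (hx j)
  obtain ⟨ι, iι, e', he', hspan', hlev'⟩ := adapted P _ (sp k T univ) inferInstance rfl
  have hcard : Fintype.card ι = Fintype.card (Unit ⊕ Fin w) := by
    rw [← finrank_span_eq_card he', hspan', Fintype.card_sum, Fintype.card_unique,
      Fintype.card_fin]
    change rk k T univ = _
    rw [hrk, add_comm]
  let φ : Unit ⊕ Fin w ≃ ι := (Fintype.equivOfCardEq hcard).symm
  obtain ⟨e, hee⟩ : ∃ e : Unit ⊕ Fin w → K, e = e' ∘ φ := ⟨_, rfl⟩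
  have he : LinearIndependent k e := by
    rw [hee]
    exact he'.comp _ φ.injective
  have hspan : Submodule.span k (Set.range e) = sp k T univ := by
    rw [hee, φ.surjective.range_comp, hspan']
  have hlev : ∀ a : ℤ, finrank k (lev P (sp k T univ) a) ≤
      (univ.filter fun i => a ≤ P.ord (e i)).card := by
    intro a
    refine (hlev' a).trans (le_of_eq ?_)
    rw [← card_map φ.toEmbedding (s := univ.filter fun i => a ≤ P.ord (e i))]
    congr 1
    ext i
    simp only [mem_filter, mem_univ, true_and, mem_map, Equiv.coe_toEmbedding, hee,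
      Function.comp_apply]
    constructor
    · intro h1
      exact ⟨φ.symm i, by rwa [φ.apply_symm_apply], φ.apply_symm_apply i⟩
    · rintro ⟨j, h1, rfl⟩
      exact h1
  have he0 : ∀ i, e i ≠ 0 := fun i => he.ne_zero i
  obtain ⟨i0, -, hi0⟩ := exists_min_image (univ : Finset (Unit ⊕ Fin w)) (fun i => P.ord (e i))
    ⟨Sum.inl (), mem_univ _⟩
  obtain ⟨M, hM1, hM2, hM3, hM4, hM5, hM6⟩ := level_ineq P hx hT h he hspan hlev i0
    fun i => hi0 i (mem_univ i)
  obtain ⟨m0, hm0⟩ : ∃ m0, m0 = P.ord (e i0) := ⟨_, rfl⟩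
  rw [← hm0] at hM1 hM3 hM4 hM5 hM6
  have hue : ∀ j, u j ∈ Submodule.span k (Set.range e) := fun j => hspan ▸ hu j
  obtain ⟨hZ0, hZo⟩ := ord_mprod P (Z := Z) fun z hz => (h.mem z hz).2
  have hTp0 : ∀ j, T j ^ b j ≠ 0 := fun j => pow_ne_zero _ (hT0 j)
  have hTp : P.ord (∏ j, T j ^ b j) = ∑ j, (b j : ℤ) * P.ord (T j) := by
    rw [ord_prod P _ _ hTp0]
    exact sum_congr rfl fun j _ => P.ord_pow _ _
  have hq : P.ord (Z.prod / ∏ j, T j ^ b j) = (Z.map P.ord).sum -
      ∑ j, (b j : ℤ) * P.ord (T j) := by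
    rw [P.ord_div hZ0 (prod_ne_zero_iff.2 fun j _ => hTp0 j), hZo, hTp]
  have hfm : ∀ n : ℤ, Ge P n (vw D u).det → Ge P (Dg * n + ((Z.map P.ord).sum -
      ∑ j, (b j : ℤ) * P.ord (T j))) (fm Dg T b Z u D) := by
    intro n hn
    have h1 := (hn.pow Dg).mul (ge_ord P (Z.prod / ∏ j, T j ^ b j))
    rw [hq] at h1
    exact h1
  have hε : (0 : ℤ) ≤ ε := Int.natCast_nonneg _
  have hDg : (0 : ℤ) ≤ Dg := Int.natCast_nonneg _
  refine ⟨M - m0, by omega, fun i j => ?_, ?_⟩
  · have := hM3 i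
    have := hM3 j
    omega
  by_cases hMm : M = m0
  · left
    refine ⟨fun i j => ?_, ?_⟩
    · have := hM3 i
      have := hM3 j
      omega
    · have hall : ∀ i, P.ord (e i) = m0 := fun i => by
        have h1 := hM2 i
        have h2 := hi0 i (mem_univ i)
        omega
      have h1 := hfm _ (vw_span hue (vw_ge0 hD he0 fun i => by rw [hall, hall]))
      refine h1.mono ?_
      rw [hMm, sub_self, mul_zero, add_zero] at hM4
      linarith
  have h1 := hfm _ (vw_span hue (vw_ge hD he0))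
  rcases hM6 with h6 | h6
  · left
    refine ⟨fun i j => by rw [h6, h6], h1.mono ?_⟩
    have h7 := hM5 h6
    have h8 : (Dg : ℤ) * 1 ≤ Dg * (M - m0) := mul_le_mul_of_nonneg_left (by omega) hDg
    linarith
  · right
    refine ⟨h6, h1.mono ?_⟩
    linarith

/-- the form is regular -/
theorem fm_reg (P : Place k K) {d : ℕ} {x T : Fin N → K}
    (hx : ∀ j, x j ≠ 0) (hT : ∀ j, T j = x j ^ d) {Dg ε : ℕ} {b : Fin N → ℕ} {Z : Multiset K}
    (h : Wts k Dg ε T b Z) (hrk : rk k T univ = w + 1) {u : Unit ⊕ Fin w → K}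
    (hu : ∀ j, u j ∈ sp k T univ) {D : Fin w → Derivation k K K} (hD : ∀ i, DerReg P (D i))
    (hdε : Dg ≤ ε * d) : Ge P 0 (fm Dg T b Z u D) := by
  obtain ⟨y, hy, -, h1 | ⟨h1, h2⟩⟩ := fm_ge P hx hT h hrk hu hD
  · exact h1.2
  · refine h2.mono ?_
    have h3 : (ε : ℤ) * d ≤ ε * y := mul_le_mul_of_nonneg_left h1 (Int.natCast_nonneg _)
    have h4 : (Dg : ℤ) ≤ ε * d := by exact_mod_cast hdε
    linarith

/-- the multiples of the power of the form are regular -/
theorem fm_big (P : Place k K) {d : ℕ} {x T : Fin N → K}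
    (hx : ∀ j, x j ≠ 0) (hT : ∀ j, T j = x j ^ d) {Dg ε : ℕ} {b : Fin N → ℕ} {Z : Multiset K}
    (h : Wts k Dg ε T b Z) (hrk : rk k T univ = w + 1) {u : Unit ⊕ Fin w → K}
    (hu : ∀ j, u j ∈ sp k T univ) {D : Fin w → Derivation k K K} (hD : ∀ i, DerReg P (D i))
    {m : ℕ} (hm : m * Dg + d ≤ m * ε * d) (hmε : 1 ≤ m * ε) (i j : Fin N) :
    Ge P 0 (fm Dg T b Z u D ^ m * (T i / T j)) := by
  have hT0 : ∀ j, T j ≠ 0 := fun j => by
    rw [hT]
    exact pow_ne_zero _ (hx j)
  obtain ⟨y, hy, hyy, h1⟩ := fm_ge P hx hT h hrk hu hD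
  have h4 : Ge P (P.ord (T i) - P.ord (T j)) (T i / T j) := by
    right
    rw [P.ord_div (hT0 i) (hT0 j)]
  rcases h1 with ⟨h1, h2⟩ | ⟨h1, h2⟩
  · have h3 := (h2.pow m).mul h4
    rw [h1 i j, sub_self, mul_zero, add_zero] at h3
    exact h3
  · refine ((h2.pow m).mul h4).mono ?_
    have h5 := hyy j i
    have h6 : (m : ℤ) * Dg + d ≤ m * ε * d := by exact_mod_cast hm
    have h7 : (1 : ℤ) ≤ m * ε := by exact_mod_cast hmε
    nlinarith

end loc

end Pool.Agent.T9h4.DI
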