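import Pool.Agent.Y191.Kum3
import Pool.Agent.Y191.CanC
import Pool.Agent.Y191.MovAb
import Pool.Agent.W602.GT.PsefDefs

/-!
Kummer covers of a relative affine space, branched over few hyperplanes: the canonical class is not
pseudo-effective.
-/

set_option autoImplicit false
set_option linter.overlappingInstances false
set_option linter.unusedSectionVars false

open FF MvPolynomial Pool.Agent.W602.GT Pool.Agent.W603.LV
open Pool.Agent.Y172 Pool.Agent.Y191

namespace Pool.Agent.T9h4.DI

variable {K : Type} [Field K] [Algebra ℂ K] {σ : Type} [Fintype σ] [DecidableEq σ] {n : ℕ}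
variable {F : IntermediateField ℂ K} {U : σ → K} {d e : ℕ} {y : Fin e → K}
  {ℓ : Fin e → MvPolynomial σ F}

/-- the field of rational functions of the affine space -/
noncomputable def E0 (F : IntermediateField ℂ K) (U : σ → K) : IntermediateField ℂ K :=
  IntermediateField.adjoin ℂ ((F : Set K) ∪ Set.range U)

/-- `K` is generated over `F(U)` by the `d`-th roots `y i` of the linear functions `ℓ i` of `U` -/
structure Kmr (F : IntermediateField ℂ K) (U : σ → K) (d : ℕ) (y : Fin e → K)
    (ℓ : Fin e → MvPolynomial σ F) : Prop where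
  cl : Closed F
  bas : IsTranscendenceBasis F U
  irr : ∀ i, Irreducible (ℓ i)
  deg : ∀ i, bd Finset.univ (ℓ i) = 1
  nas : ∀ i j, ℓ i ∣ ℓ j → i = j
  pow : ∀ i, y i ^ d = aeval U (ℓ i)
  top : ET (E0 F U) y Set.univ = ⊤

theorem aeval_mem_E0 (Q : MvPolynomial σ F) : aeval U Q ∈ E0 F U := by
  induction Q using MvPolynomial.induction_on with
  | C a =>
    rw [aeval_C]
    exact IntermediateField.subset_adjoin ℂ _ (Or.inl a.2)
  | add P Q hP hQ =>
    rw [map_add]
    exact add_mem hP hQ
  | mul_X P s hP =>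
    rw [map_mul, aeval_X]
    exact mul_mem hP (IntermediateField.subset_adjoin ℂ _ (Or.inr ⟨s, rfl⟩))

theorem Kmr.ne (h : Kmr F U d y ℓ) {Q : MvPolynomial σ F} (hQ : Q ≠ 0) : aeval U Q ≠ 0 :=
  fun h0 => hQ ((injective_iff_map_eq_zero _).1 h.bas.1 Q h0)

theorem AdicF.pos' {P : Place ℂ K} {g : MvPolynomial σ F} (hg : Irreducible g)
    (hP : AdicF P U g) : 0 < P.ord (aeval U g) := by
  have h5 := hP g hg.ne_zero
  rcases lt_or_eq_of_le h5.1 with h6 | h6
  · exact h6
  · exact absurd dvd_rfl (h5.2.1 h6.symm)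

/-- the ramification index at the places over the prime divisors of the affine space -/
theorem Kmr.adic (h : Kmr F U d y ℓ) (hd : 0 < d) {P : Place ℂ K} {g : MvPolynomial σ F}
    (hg : Irreducible g) (hP : AdicF P U g) :
    P.ord (aeval U g) = 1 ∨ (P.ord (aeval U g) ≤ d ∧
      ∃ i, P.ord (aeval U (ℓ i)) = P.ord (aeval U g)) := by
  have ht := AdicF.pos' hg hP
  by_cases hall : ∀ i, ¬ g ∣ ℓ i
  · left
    exact tower_one (m := fun _ : Fin e => d) ht (adic_vg hg hP) (aeval_mem_E0 g) rfl
      (fun _ => hd) (fun i => aeval_mem_E0 (ℓ i)) (fun i => h.ne (h.irr i).ne_zero) h.pow h.top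
      (fun i => (hP _ (h.irr i).ne_zero).2.2 (hall i))
  · right
    push Not at hall
    obtain ⟨j, hj⟩ := hall
    obtain ⟨c, hc⟩ := hj
    have hcu : IsUnit c := (h.irr j).isUnit_or_isUnit hc |>.resolve_left hg.not_isUnit
    have hj1 : P.ord (aeval U (ℓ j)) = P.ord (aeval U g) := by
      have hc0 : c ≠ 0 := hcu.ne_zero
      rw [hc, map_mul, P.ord_mul (h.ne hg.ne_zero) (h.ne hc0),
        (hP c hc0).2.2 (fun hd => hg.not_isUnit (isUnit_of_dvd_unit hd hcu)), add_zero]
    refine ⟨?_, j, hj1⟩
    have h1 := tower_dvd (m := fun _ : Fin e => d) ht (adic_vg hg hP) (aeval_mem_E0 g) rfl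
      (fun _ => hd) (fun i => aeval_mem_E0 (ℓ i)) (fun i => h.ne (h.irr i).ne_zero) h.pow h.top j
      (a := 1) (by rw [one_mul, hj1]) (fun i hi => (hP _ (h.irr i).ne_zero).2.2 fun hd' => hi (by
        refine (h.nas j i ?_).symm
        refine dvd_trans ?_ hd'
        rw [hc]
        exact (hcu.mul_right_dvd).2 dvd_rfl))
    have h2 := Int.le_of_dvd (by
      simp only [Int.natAbs_one, Nat.gcd_one_right, Nat.div_one]
      exact_mod_cast hd) h1
    simpa using h2

theorem mem_flp (l : σ) (J : Finset σ) : ∀ i, flp U J l i ∈ E0 F U := by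
  have h1 : ∀ i, U i ∈ E0 F U := fun i => IntermediateField.subset_adjoin ℂ _ (Or.inr ⟨i, rfl⟩)
  intro i
  unfold flp
  split_ifs
  · exact inv_mem (h1 l)
  · exact div_mem (h1 i) (h1 l)
  · exact h1 i

theorem E0_flp (hU : ∀ i, U i ≠ 0) (l : σ) : E0 F (flp U Finset.univ l) = E0 F U := by
  refine le_antisymm (IntermediateField.adjoin_le_iff.2 ?_) (IntermediateField.adjoin_le_iff.2 ?_)
  · rintro z (hz | ⟨i, rfl⟩)
    · exact IntermediateField.subset_adjoin ℂ _ (Or.inl hz)
    · exact mem_flp l _ i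
  · rintro z (hz | ⟨i, rfl⟩)
    · exact IntermediateField.subset_adjoin ℂ _ (Or.inl hz)
    · have h1 : ∀ i, flp U Finset.univ l i ∈ E0 F (flp U Finset.univ l) := fun i =>
        IntermediateField.subset_adjoin ℂ _ (Or.inr ⟨i, rfl⟩)
      have h2 : U l ∈ E0 F (flp U Finset.univ l) := by
        have h3 := inv_mem (h1 l)
        unfold flp at h3
        rw [if_pos rfl, inv_inv] at h3
        exact h3
      by_cases hi : i = l
      · rw [hi]
        exact h2
      · have h3 := mul_mem (h1 i) h2
        have h4 : flp U Finset.univ l i = U i / U l := by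
          unfold flp
          rw [if_neg hi, if_pos (Finset.mem_univ i)]
        rw [h4, div_mul_cancel₀ _ (hU l)] at h3
        exact h3

/-- the ramification index at infinity -/
theorem Kmr.deg_le (h : Kmr F U d y ℓ) (hd : 0 < d) {P : Place ℂ K} {ρ : ℕ} (hρ : 1 ≤ ρ)
    (hP : DegF F P U Finset.univ ρ) (l : σ) : ρ ≤ d := by
  classical
  obtain ⟨hl1, hl2⟩ := hP.adic hρ (Finset.mem_univ l)
  have hU0 : ∀ i, U i ≠ 0 := fun i => h.bas.1.ne_zero i
  have hE := E0_flp (F := F) hU0 l
  have hvg : VG P (ρ : ℤ) (E0 F U) := by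
    have h1 := adic_vg X_prime.irreducible hl2
    rw [aeval_X, hl1] at h1
    rw [← hE]
    exact h1
  have hπ : flp U Finset.univ l l ∈ E0 F U := mem_flp l _ l
  have hρ0 : (0 : ℤ) < ρ := by exact_mod_cast hρ
  have hℓ : ∀ i, P.ord (aeval U (ℓ i)) = -(ρ : ℤ) := fun i => by
    rw [hP _ (h.irr i).ne_zero, h.deg i, Nat.cast_one, mul_one]
  have hℓ0 : ∀ i, aeval U (ℓ i) ≠ 0 := fun i => h.ne (h.irr i).ne_zero
  have hy0 : ∀ i, y i ≠ 0 := fun i h0 => hℓ0 i (by rw [← h.pow i, h0, zero_pow hd.ne'])
  rcases Nat.eq_zero_or_pos e with he | he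
  · subst he
    have h1 := tower_one (m := fun _ : Fin 0 => d) (u := fun i => aeval U (ℓ i)) hρ0 hvg hπ hl1
      (fun _ => hd) (fun i => i.elim0) (fun i => i.elim0) (fun i => i.elim0) h.top
      (fun i => i.elim0)
    omega
  · obtain ⟨i0⟩ : Nonempty (Fin e) := ⟨⟨0, he⟩⟩
    let y' : Fin e → K := fun i => if i = i0 then y i0 else y i / y i0
    let u' : Fin e → K := fun i => if i = i0 then aeval U (ℓ i0) else
      aeval U (ℓ i) / aeval U (ℓ i0)
    have hu' : ∀ i, u' i ∈ E0 F U := by
      intro i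
      by_cases hi : i = i0
      · simp only [u', if_pos hi]
        exact aeval_mem_E0 _
      · simp only [u', if_neg hi]
        exact div_mem (aeval_mem_E0 _) (aeval_mem_E0 _)
    have hu'0 : ∀ i, u' i ≠ 0 := by
      intro i
      by_cases hi : i = i0
      · simp only [u', if_pos hi]
        exact hℓ0 _
      · simp only [u', if_neg hi]
        exact div_ne_zero (hℓ0 _) (hℓ0 _)
    have hy' : ∀ i, y' i ^ d = u' i := by
      intro i
      by_cases hi : i = i0
      · simp only [u', y', if_pos hi]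
        exact h.pow i0
      · simp only [u', y', if_neg hi]
        rw [div_pow, h.pow, h.pow]
    have htop : ET (E0 F U) y' Set.univ = ⊤ := by
      rw [eq_top_iff, ← h.top]
      refine IntermediateField.adjoin_le_iff.2 ?_
      have h1 : ∀ i, y' i ∈ ET (E0 F U) y' Set.univ := fun i =>
        IntermediateField.subset_adjoin ℂ _ (Or.inr ⟨i, Set.mem_univ i, rfl⟩)
      rintro z (hz | ⟨i, -, rfl⟩)
      · exact le_ET _ hz
      · have h2 := h1 i0
        simp only [y', if_pos rfl] at h2
        by_cases hi : i = i0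
        · rw [hi]
          exact h2
        · have h3 := mul_mem (h1 i) h2
          simp only [y', if_neg hi] at h3
          rw [div_mul_cancel₀ _ (hy0 i0)] at h3
          exact h3
    have h1 := tower_dvd (m := fun _ : Fin e => d) hρ0 hvg hπ hl1 (fun _ => hd) hu' hu'0 hy' htop
      i0 (a := -1) (by
        simp only [u', if_pos rfl]
        rw [hℓ]
        ring) (fun i hi => by
        simp only [u', if_neg hi]
        rw [P.ord_div (hℓ0 _) (hℓ0 _), hℓ, hℓ, sub_self])
    have h2 := Int.le_of_dvd (by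
      simp only [Int.natAbs_neg, Int.natAbs_one, Nat.gcd_one_right, Nat.div_one]
      exact_mod_cast hd) h1
    simp only [Int.natAbs_neg, Int.natAbs_one, Nat.gcd_one_right, Nat.div_one] at h2
    exact_mod_cast h2

end Pool.Agent.T9h4.DI
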