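import Pool.Agent.T9h4.DI.NegA

/-!
Kummer covers of a relative affine space, branched over few hyperplanes: the canonical class is not
pseudo-effective.
-/

set_option autoImplicit false
set_option linter.overlappingInstances false
set_option linter.unusedSectionVars false

open FF MvPolynomial Pool.Agent.W602.GT Pool.Agent.W603.LV
open Pool.Agent.Y172 Pool.Agent.Y191

namespace Pool.Agent.T9h4.DI

variable {K : Type} [Field K] [Algebra ℂ K] {σ : Type} [Fintype σ] [DecidableEq σ] {n : ℕ}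
variable {F : IntermediateField ℂ K} {U : σ → K} {d e : ℕ} {y : Fin e → K}
  {ℓ : Fin e → MvPolynomial σ F}

/-- **The canonical class is not pseudo-effective.** -/
theorem Kmr.not_psef [Algebra.EssFiniteType ℂ K] (hn : Algebra.trdeg ℂ K = n)
    (h : Kmr F U d y ℓ) (hd : 0 < d) (l : σ)
    (hnum : (e + 1) * (d - 1) < d * (Fintype.card σ + 1)) :
    ¬ Psef ℂ K n (fun _ => False) := by
  classical
  rintro ⟨S, hS⟩
  have hU0 : ∀ i, U i ≠ 0 := fun i => h.bas.1.ne_zero i
  obtain ⟨q0, z, e', D, hFr⟩ := exists_FrF hn h.cl h.bas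
  obtain ⟨C, hC⟩ := fam_zero (F := F) (U := U) h.bas (fun _ => 0) (fun _ => 0) (by simp)
    Finset.univ ⟨l, Finset.mem_univ l⟩
  obtain ⟨p, hp, hpS⟩ := dom_poly (F := F) h.bas (S.image fun s => s⁻¹)
  have hU' := flp_basis h.bas Finset.univ l
  obtain ⟨q, hq, hqS⟩ := dom_poly (F := F) hU' (S.image fun s => s⁻¹)
  obtain ⟨a, r, hr, hqr⟩ := WfDvdMonoid.max_power_factor hq (X_prime (R := F) (i := l)).irreducible
  obtain ⟨N', hN'⟩ : ∃ N', N' = C + a + bd Finset.univ p + 1 := ⟨_, rfl⟩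
  obtain ⟨j, hj, ω, hω, D0, hD0⟩ := hS (d * N')
  obtain ⟨c, hc⟩ : ∃ c, c = j * N' * (d - 1) := ⟨_, rfl⟩
  obtain ⟨L, hL⟩ : ∃ L : MvPolynomial σ F, L = (∏ i, ℓ i) ^ c * p ^ j := ⟨_, rfl⟩
  have hℓ0 : ∏ i, ℓ i ≠ 0 := Finset.prod_ne_zero_iff.2 fun i _ => (h.irr i).ne_zero
  have hL0 : L ≠ 0 := by
    rw [hL]
    exact mul_ne_zero (pow_ne_zero _ hℓ0) (pow_ne_zero _ hp)
  have hLK : aeval U L ≠ 0 := h.ne hL0
  have hL1 : ∀ P : Place ℂ K, P.ord (aeval U L) =
      c * ∑ i, P.ord (aeval U (ℓ i)) + j * P.ord (aeval U p) := by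
    intro P
    rw [hL, map_mul, P.ord_mul (h.ne (pow_ne_zero _ hℓ0)) (h.ne (pow_ne_zero _ hp)), map_pow,
      map_pow, P.ord_pow, P.ord_pow, map_prod, ord_prod P _ _ fun i => h.ne (h.irr i).ne_zero]
  have hω0 : ω D ≠ 0 := by
    intro h0
    have h1 := pluri_zero hFr.frame hω.1 h0
    rw [h1] at hD0
    exact hD0 rfl
  -- the estimates of the section
  have key : ∀ (P : Place ℂ K) (m : ℤ), Divisorial n P → (∀ s ∈ S, s ≠ 0 → -m ≤ P.ord s) →
      ∀ E : Fin n → Derivation ℂ K K, (∀ i, DerReg P (E i)) →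
        ω E = 0 ∨ (-(j * m : ℤ) : ℝ) ≤ P.ord (ω E) := by
    intro P m hPd hm E hE
    rcases hω.2.2 P hPd (fun h0 => h0) E hE with h1 | ⟨s, hs, hs0, h1⟩
    · exact Or.inl h1
    · right
      have h2 := hm s hs hs0
      have h3 : (j : ℤ) * -m ≤ j * P.ord s := mul_le_mul_of_nonneg_left h2 (Int.natCast_nonneg _)
      have h4 : -((j : ℤ) * m) ≤ P.ord (ω E) := by linarith
      exact_mod_cast h4
  have hdle : ∀ ρ : ℕ, 1 ≤ ρ → ρ ≤ d → ((j * (d * N') : ℕ) : ℤ) * (ρ - 1) ≤ (c : ℤ) * ρ := by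
    intro ρ hρ1 hρ
    obtain ⟨d', rfl⟩ : ∃ d', d = d' + 1 := ⟨d - 1, by omega⟩
    rw [hc, Nat.add_sub_cancel]
    push_cast
    have h1 : (ρ : ℤ) ≤ d' + 1 := by exact_mod_cast hρ
    have h2 : (0 : ℤ) ≤ (j : ℤ) * N' := by positivity
    nlinarith
  have hfin : ω D * aeval U L = 0 := by
    refine hC ((j * (N' - a - bd Finset.univ p) : ℕ) : ℤ) _ ?_ ?_ ?_
    · have h1 : C + 1 ≤ j * (N' - a - bd Finset.univ p) := by
        have h2 : C + 1 = N' - a - bd Finset.univ p := by omega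
        rw [← h2]
        exact Nat.le_mul_of_pos_left _ hj
      have h2 : C < j * (N' - a - bd Finset.univ p) := by omega
      exact_mod_cast h2
    · intro P g hg hPg
      have hPd := hPg.divisorial hFr hg
      right
      rw [P.ord_mul hω0 hLK, hL1]
      have hmS : ∀ s ∈ S, s ≠ 0 → -P.ord (aeval U p) ≤ P.ord s := by
        intro s hs hs0
        have h1 := hpS P (AdicF.reg hPg) s⁻¹ (Finset.mem_image_of_mem _ hs) (inv_ne_zero hs0)
        rw [P.ord_inv] at h1
        linarith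
      have h1 := (hFr.adic_ge hn hPd hg hPg hω.1 (key P _ hPd hmS)).resolve_left hω0
      have h2 : -((j : ℤ) * P.ord (aeval U p)) -
          ((j * (d * N') : ℕ) : ℤ) * (P.ord (aeval U g) - 1) ≤ P.ord (ω D) := by
        exact_mod_cast h1
      have hsum : ∀ i, 0 ≤ P.ord (aeval U (ℓ i)) := fun i => (hPg _ (h.irr i).ne_zero).1
      have hc0 : (0 : ℤ) ≤ c := Int.natCast_nonneg _
      rcases h.adic hd hg hPg with h3 | ⟨h3, i, h4⟩
      · rw [h3] at h2
        have h5 : 0 ≤ (c : ℤ) * ∑ i, P.ord (aeval U (ℓ i)) :=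
          mul_nonneg hc0 (Finset.sum_nonneg fun i _ => hsum i)
        push_cast at h2 ⊢
        linarith
      · have h5 : P.ord (aeval U g) ≤ ∑ i, P.ord (aeval U (ℓ i)) := by
          rw [← h4]
          exact Finset.single_le_sum (fun i _ => hsum i) (Finset.mem_univ i)
        have h6 := mul_le_mul_of_nonneg_left h5 hc0
        have hpos := AdicF.pos' hg hPg
        obtain ⟨ρ, hρ⟩ := Int.eq_ofNat_of_zero_le hpos.le
        rw [hρ] at h2 h3 h6 hpos
        have h7 := hdle ρ (by omega) (by omega)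
        push_cast at h2 h7 ⊢
        linarith
    · intro P ρ hρ hPJ
      have hPd := hPJ.divisorial hFr (Finset.mem_univ l) hρ
      obtain ⟨hl1, hl2⟩ := hPJ.adic hρ (Finset.mem_univ l)
      right
      rw [P.ord_mul hω0 hLK, hL1]
      have hqo : P.ord (aeval (flp U Finset.univ l) q) = a * ρ := by
        have h1 : r ≠ 0 := by
          rintro rfl
          exact hr (dvd_zero _)
        have hne : ∀ Q : MvPolynomial σ F, Q ≠ 0 → aeval (flp U Finset.univ l) Q ≠ 0 :=
          fun Q hQ h0 => hQ ((injective_iff_map_eq_zero _).1 hU'.1 Q h0)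
        rw [hqr, map_mul, map_pow, P.ord_mul (pow_ne_zero _ (hne _ (X_ne_zero _))) (hne r h1),
          P.ord_pow, (hl2 r h1).2.2 hr, aeval_X, hl1, add_zero]
      have hmS : ∀ s ∈ S, s ≠ 0 → -((a : ℤ) * ρ) ≤ P.ord s := by
        intro s hs hs0
        have h1 := hqS P (AdicF.reg hl2) s⁻¹ (Finset.mem_image_of_mem _ hs) (inv_ne_zero hs0)
        rw [P.ord_inv, hqo] at h1
        linarith
      have h1 := (hFr.deg_ge hn hPd (Finset.mem_univ l) hρ hPJ hω.1
        (key P _ hPd hmS)).resolve_left hω0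
      rw [Finset.card_univ] at h1
      have h2 : -((j : ℤ) * (a * ρ)) - ((j * (d * N') : ℕ) : ℤ) * (ρ - 1) +
          ((j * (d * N') : ℕ) : ℤ) * (ρ * (Fintype.card σ + 1)) ≤ P.ord (ω D) := by
        exact_mod_cast h1
      have h3 := hdle ρ hρ (h.deg_le hd hρ hPJ l)
      have h4 : ∑ i, P.ord (aeval U (ℓ i)) = -((e : ℤ) * ρ) := by
        have h5 : ∀ i, P.ord (aeval U (ℓ i)) = -(ρ : ℤ) := fun i => by
          rw [hPJ _ (h.irr i).ne_zero, h.deg i, Nat.cast_one, mul_one]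
        simp only [h5, Finset.sum_const, Finset.card_univ, Fintype.card_fin, nsmul_eq_mul]
        ring
      rw [h4, hPJ p hp]
      obtain ⟨d', rfl⟩ : ∃ d', d = d' + 1 := ⟨d - 1, by omega⟩
      rw [Nat.add_sub_cancel] at hc hnum
      have h5 : (e + 1) * d' + 1 ≤ (d' + 1) * (Fintype.card σ + 1) := hnum
      have h6 : ((e + 1) * d' + 1 : ℤ) ≤ (d' + 1) * (Fintype.card σ + 1) := by exact_mod_cast h5
      have h7 : (0 : ℤ) ≤ (j : ℤ) * N' * ρ := by positivity
      have h8 := mul_le_mul_of_nonneg_left h6 h7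
      have h9 : ((N' - a - bd Finset.univ p : ℕ) : ℤ) = N' - a - bd Finset.univ p := by
        have h10 : a + bd Finset.univ p ≤ N' := by omega
        rw [Nat.sub_sub, Nat.cast_sub h10]
        push_cast
        ring
      push_cast [h9]
      rw [hc] at h3 ⊢
      push_cast at h2 h3 ⊢
      nlinarith
  rcases mul_eq_zero.1 hfin with h1 | h1
  · exact hω0 h1
  · exact hLK h1

end Pool.Agent.T9h4.DI
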