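import Pool.Agent.T9h4.DI.Pos
import Pool.Agent.T9h4.DI.NegA

/-!
Diagonal intersections: the fibration which is attached to a partition of the coordinates.
-/

set_option autoImplicit false
set_option linter.overlappingInstances false
set_option linter.unusedSectionVars false

open FF Module Finset Pool.Agent.W602.GT Pool.Agent.W603.LV
open Pool.Agent.Y172 Pool.Agent.Y191

namespace Pool.Agent.T9h4.DI

section

variable {k K : Type} [Field k] [Field K] [Algebra k K] {w N d : ℕ} {x : Fin N → K}

/-- vector fields which are given by linear maps -/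
theorem exists_der_lin [CharZero k] (hd : 0 < d) (h : Dat k d w x) (δ : K →ₗ[k] K) :
    ∃ D : Derivation k K K, ∀ a ∈ sp k (fun j => x j ^ d) univ,
      ∀ b ∈ sp k (fun j => x j ^ d) univ, b ≠ 0 → D (a / b) = (δ a * b - a * δ b) / b ^ 2 := by
  obtain ⟨u, -, -, hu0, -, hspan, htb⟩ := exists_basis hd h
  obtain ⟨v, hv⟩ : ∃ v, v = u (Sum.inl ()) := ⟨_, rfl⟩
  have hv0 : v ≠ 0 := hv ▸ hu0 _
  obtain ⟨D, hD⟩ := exists_der _ htb
    fun j => (δ (u (Sum.inr j)) * v - u (Sum.inr j) * δ v) / v ^ 2
  have h1 : ∀ a ∈ sp k (fun j => x j ^ d) univ, D (a / v) = (δ a * v - a * δ v) / v ^ 2 := by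
    intro a ha
    rw [← hspan] at ha
    induction ha using Submodule.span_induction with
    | mem y hy =>
      obtain ⟨i, rfl⟩ := hy
      rcases i with i | i
      · change D (u (Sum.inl ()) / v) = (δ (u (Sum.inl ())) * v - u (Sum.inl ()) * δ v) / v ^ 2
        rw [← hv, div_self hv0, D.map_one_eq_zero, mul_comm v, sub_self, zero_div]
      · have h2 := hD i
        rw [← hv] at h2
        exact h2
    | zero => simp
    | add a b _ _ ha hb =>
      rw [add_div, map_add, ha, hb, map_add]
      ring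
    | smul c a _ ha =>
      rw [smul_div_assoc, D.map_smul, ha, map_smul]
      simp only [Algebra.smul_def]
      ring
  refine ⟨D, fun a ha b hb hb0 => ?_⟩
  have h2 : a / b = (a / v) / (b / v) := by
    field_simp
  rw [h2, D.leibniz_div, h1 a ha, h1 b hb]
  simp only [smul_eq_mul]
  field_simp
  ring

/-- a transcendence basis from derivations -/
theorem basis_of_ders [CharZero k] {F : IntermediateField k K} {σ : Type} {U : σ → K}
    (halg : Algebra.IsAlgebraic (Algebra.adjoin F (Set.range U)) K)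
    (h : ∀ b, ∃ D : Derivation k K K, Kills D F ∧ D (U b) ≠ 0 ∧ ∀ b', b' ≠ b → D (U b') = 0) :
    IsTranscendenceBasis F U := by
  obtain ⟨t, ht, htb⟩ := exists_isTranscendenceBasis_subset (R := F) (Set.range U)
  have h1 : ∀ b, U b ∈ t := by
    intro b
    by_contra hcon
    obtain ⟨D, hD, hDb, hD'⟩ := h b
    have h2 : D = 0 := by
      refine ext_over htb hD (fun _ _ => rfl) fun i => ?_
      obtain ⟨b', hb'⟩ := ht i.2
      have h3 : b' ≠ b := fun h0 => hcon (by rw [← h0, hb']; exact i.2)
      rw [← hb', hD' b' h3]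
      rfl
    rw [h2] at hDb
    exact hDb rfl
  have h2 : Function.Injective U := by
    intro b b' hbb
    by_contra hcon
    obtain ⟨D, -, hDb, hD'⟩ := h b
    rw [hbb, hD' b' (Ne.symm hcon)] at hDb
    exact hDb rfl
  have h3 : t = Set.range U := by
    refine Set.Subset.antisymm ht ?_
    rintro _ ⟨b, rfl⟩
    exact h1 b
  subst h3
  exact (isTranscendenceBasis_subtype_range h2).1 htb

/-- a functional which is dual to a member of a linearly independent family -/
theorem exists_coord {κ : Type} {t : κ → K} (ht : LinearIndependent k t) (b : κ) :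
    ∃ π : K →ₗ[k] k, π (t b) = 1 ∧ ∀ b', b' ≠ b → π (t b') = 0 := by
  obtain ⟨π, hπ⟩ := LinearMap.exists_extend ((Finsupp.lapply b).comp ht.repr :
    Submodule.span k (Set.range t) →ₗ[k] k)
  have h1 : ∀ b', π (t b') = ht.repr ⟨t b', Submodule.subset_span ⟨b', rfl⟩⟩ b := fun b' =>
    congrArg (fun f => f ⟨t b', Submodule.subset_span ⟨b', rfl⟩⟩) hπ
  have h2 : ∀ b', ht.repr ⟨t b', Submodule.subset_span ⟨b', rfl⟩⟩ = Finsupp.single b' 1 :=
    fun b' => ht.repr_eq_single b' _ rfl
  refine ⟨π, ?_, fun b' hb => ?_⟩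
  · rw [h1, h2, Finsupp.single_eq_same]
  · rw [h1, h2, Finsupp.single_eq_of_ne (Ne.symm hb)]

theorem exists_rep (φ : Fin N → Fin N) :
    ∃ R : Fin N → Fin N, (∀ j, φ (R j) = φ j) ∧ ∀ i j, φ i = φ j → R i = R j := by
  classical
  have h1 : ∀ i : Fin N, ∃ l : Fin N, (∃ m, φ m = i) → φ l = i := by
    intro i
    by_cases h : ∃ m, φ m = i
    · obtain ⟨m, hm⟩ := h
      exact ⟨m, fun _ => hm⟩
    · exact ⟨i, fun h0 => absurd h0 h⟩
  choose s hs using h1
  refine ⟨fun j => s (φ j), fun j => hs _ ⟨j, rfl⟩, fun i j hij => by simp only [hij]⟩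

theorem der_pow_zero [CharZero k] {D : Derivation k K K} {y : K} (hy : y ≠ 0) (hd : 0 < d)
    (h : D (y ^ d) = 0) : D y = 0 := by
  have hK : CharZero K := charZero_of_injective_algebraMap (algebraMap k K).injective
  rw [D.leibniz_pow] at h
  simp only [nsmul_eq_mul, smul_eq_mul] at h
  rcases mul_eq_zero.1 h with h1 | h1
  · exact absurd h1 (by exact_mod_cast hd.ne')
  · exact (mul_eq_zero.1 h1).resolve_left (pow_ne_zero _ hy)

end

end Pool.Agent.T9h4.DI
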