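import Pool.Agent.T9h4.DI.NegC

/-!
Diagonal intersections: the coordinates of the fibres of the fibration of a partition.
-/

set_option autoImplicit false
set_option linter.overlappingInstances false
set_option linter.unusedSectionVars false

open FF Module Finset Pool.Agent.W602.GT Pool.Agent.W603.LV
open Pool.Agent.Y172 Pool.Agent.Y191

namespace Pool.Agent.T9h4.DI

variable {K : Type} [Field K] [Algebra ℂ K] {w N d : ℕ} {x : Fin N → K}

/-- the ratios of the coordinates in the same block -/
noncomputable def Fb (x : Fin N → K) (R : Fin N → Fin N) : IntermediateField ℂ K :=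
  acl ℂ (Set.range fun j => x j / x (R j))

theorem Fb_closed (R : Fin N → Fin N) : Closed (Fb x R) := acl_closed _

theorem mem_Fb (R : Fin N → Fin N) (j : Fin N) : x j / x (R j) ∈ Fb x R :=
  subset_acl _ ⟨j, rfl⟩

/-- the coordinates of the fibres -/
theorem exists_fib (hd : 0 < d) (h : Dat ℂ d w x) (hN : 0 < N) (R : Fin N → Fin N) :
    ∃ (σ : Type) (_ : Fintype σ) (b0 : Fin N) (a : σ → Fin N) (c0 : Fin N → Fb x R)
      (c : Fin N → σ → Fb x R),
      IsTranscendenceBasis (Fb x R) (fun b => x (R (a b)) ^ d / x (R b0) ^ d) ∧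
      ∀ j, x (R j) ^ d / x (R b0) ^ d =
        (c0 j : K) + ∑ b, (c j b : K) * (x (R (a b)) ^ d / x (R b0) ^ d) := by
  classical
  obtain ⟨F, hF⟩ : ∃ F, F = Fb x R := ⟨_, rfl⟩
  have hmemF : ∀ j, x j / x (R j) ∈ F := fun j => hF ▸ mem_Fb R j
  rw [← hF]
  obtain ⟨t, ht⟩ : ∃ t : Fin N → K, t = fun j => x (R j) ^ d := ⟨_, rfl⟩
  have ht0 : ∀ j, t j ≠ 0 := fun j => by
    rw [ht]
    exact pow_ne_zero _ (h.ne _)
  obtain ⟨κ, a, ha, hsp, hli⟩ := exists_linearIndependent' F t
  have hκf : Finite κ := Finite.of_injective a ha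
  have := Fintype.ofFinite κ
  obtain ⟨β⟩ : Nonempty κ := by
    by_contra hcon
    rw [not_nonempty_iff] at hcon
    have h1 : t ⟨0, hN⟩ ∈ Submodule.span F (Set.range t) := Submodule.subset_span ⟨_, rfl⟩
    rw [← hsp, Set.range_eq_empty, Submodule.span_empty, Submodule.mem_bot] at h1
    exact ht0 _ h1
  have hc : ∀ j, ∃ c : κ → F, ∑ b, c b • t (a b) = t j := by
    intro j
    have h1 : t j ∈ Submodule.span F (Set.range t) := Submodule.subset_span ⟨_, rfl⟩
    rw [← hsp] at h1
    exact (Submodule.mem_span_range_iff_exists_fun F).1 h1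
  choose c hc using hc
  have hU : ∀ j, t j / t (a β) = (c j β : K) +
      ∑ b : {b : κ // b ≠ β}, (c j b.1 : K) * (t (a b.1) / t (a β)) := by
    intro j
    have h1 : t j / t (a β) = ∑ b, (c j b : K) * (t (a b) / t (a β)) := by
      conv_lhs => rw [← hc j]
      rw [sum_div]
      refine sum_congr rfl fun b _ => ?_
      rw [mul_div_assoc']
      rfl
    rw [h1, ← Finset.add_sum_erase _ _ (mem_univ β), div_self (ht0 _), mul_one]
    congr 1
    rw [← Finset.sum_subtype (univ.erase β) (p := fun b => b ≠ β)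
      (fun b => by simp) (fun b => (c j b : K) * (t (a b) / t (a β)))]
  refine ⟨{b : κ // b ≠ β}, inferInstance, a β, fun b => a b.1, fun j => c j β,
    fun j b => c j b.1, ?_, fun j => ?_⟩
  swap
  · have h1 := hU j
    rw [ht] at h1
    exact h1
  obtain ⟨U, hUd⟩ : ∃ U : {b : κ // b ≠ β} → K, U = fun b => t (a b.1) / t (a β) := ⟨_, rfl⟩
  have hgoal : (fun b : {b : κ // b ≠ β} => x (R (a b.1)) ^ d / x (R (a β)) ^ d) = U := by
    rw [hUd, ht]
  rw [hgoal]
  refine basis_of_ders (k := ℂ) ?_ fun b => ?_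
  · -- algebraicity
    let A := Algebra.adjoin F (Set.range U)
    have h0 : ∀ j, t j / t (a β) ∈ A := by
      intro j
      rw [hU]
      refine A.add_mem (A.algebraMap_mem (c j β)) (A.sum_mem fun b _ => ?_)
      refine A.mul_mem (A.algebraMap_mem (c j b.1)) (Algebra.subset_adjoin ⟨b, ?_⟩)
      rw [hUd]
    have hF1 : ∀ z ∈ F, IsAlgebraic A z := fun z hz =>
      isAlgebraic_algebraMap (algebraMap F A ⟨z, hz⟩)
    have hx1 : ∀ j, IsAlgebraic A (x j / x (R (a β))) := by
      intro j
      have h2 : IsAlgebraic A ((x (R j) / x (R (a β))) ^ d) := by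
        have h3 := h0 j
        rw [ht] at h3
        rw [div_pow]
        exact isAlgebraic_algebraMap (⟨_, h3⟩ : A)
      have h3 := (hF1 _ (hmemF j)).mul (h2.of_pow hd)
      have h4 : x j / x (R j) * (x (R j) / x (R (a β))) = x j / x (R (a β)) := by
        have := h.ne (R j)
        field_simp
      rwa [h4] at h3
    have h1 : ∀ z ∈ rat ℂ x, IsAlgebraic A z := by
      intro z hz
      unfold rat at hz
      induction hz using IntermediateField.adjoin_induction with
      | mem y hy =>
        obtain ⟨i, j, rfl⟩ := hy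
        have h3 : x i / x j = (x i / x (R (a β))) * (x j / x (R (a β)))⁻¹ := by
          have := h.ne j
          have := h.ne (R (a β))
          field_simp
        rw [h3]
        exact (hx1 i).mul (hx1 j).inv
      | algebraMap c => exact isAlgebraic_algebraMap (algebraMap ℂ A c)
      | add a b _ _ ha hb => exact ha.add hb
      | inv a _ ha => exact ha.inv
      | mul a b _ _ ha hb => exact ha.mul hb
    constructor
    intro z
    refine h1 z ?_
    rw [h.gen]
    exact IntermediateField.mem_top
  · -- the vector fields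
    obtain ⟨π, hπ1, hπ2⟩ := exists_coord hli b.1
    let δ : K →ₗ[ℂ] K :=
      { toFun := fun z => (π z : K) * t (a b.1)
        map_add' := fun z z' => by
          rw [map_add]
          push_cast
          ring
        map_smul' := fun r z => by
          have h1 : r • z = (algebraMap ℂ F r) • z := by
            rw [Algebra.smul_def, Algebra.smul_def]
            rfl
          rw [h1, map_smul]
          change ((algebraMap ℂ F r * π z : F) : K) * _ = r • _
          rw [Algebra.smul_def]
          push_cast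
          rw [mul_assoc] }
    have hδ : ∀ z, δ z = (π z : K) * t (a b.1) := fun _ => rfl
    have hmem : ∀ j, x j ^ d ∈ sp ℂ (fun j => x j ^ d) univ := fun j => mem_sp (mem_univ j)
    obtain ⟨D, hD⟩ := exists_der_lin hd h δ
    have hT : ∀ i j, D (x i ^ d / x j ^ d) =
        (δ (x i ^ d) * x j ^ d - x i ^ d * δ (x j ^ d)) / (x j ^ d) ^ 2 := fun i j =>
      hD _ (hmem i) _ (hmem j) (pow_ne_zero _ (h.ne j))
    refine ⟨D, ?_, ?_, fun b' hb' => ?_⟩
    · rw [hF]
      refine kills_acl ?_
      rintro _ ⟨j, rfl⟩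
      refine der_pow_zero (div_ne_zero (h.ne _) (h.ne _)) hd ?_
      rw [div_pow, hT]
      have h1 : δ (x j ^ d) = (x j / x (R j)) ^ d * δ (x (R j) ^ d) := by
        have h2 : x j ^ d = (⟨(x j / x (R j)) ^ d, pow_mem (hmemF j) d⟩ : F) • x (R j) ^ d := by
          change _ = (x j / x (R j)) ^ d * _
          rw [div_pow, div_mul_cancel₀ _ (pow_ne_zero _ (h.ne _))]
        rw [hδ, hδ]
        conv_lhs => rw [h2]
        rw [map_smul]
        change (x j / x (R j)) ^ d * _ * _ = _
        ring
      rw [h1, div_pow]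
      have h3 := pow_ne_zero d (h.ne (R j))
      have h4 : x j ^ d / x (R j) ^ d * δ (x (R j) ^ d) * x (R j) ^ d -
          x j ^ d * δ (x (R j) ^ d) = 0 := by
        field_simp
        ring
      rw [h4, zero_div]
    · have h1 : U b = x (R (a b.1)) ^ d / x (R (a β)) ^ d := by rw [← hgoal]
      have h2 : δ (x (R (a b.1)) ^ d) = t (a b.1) := by
        rw [hδ]
        have h3 : x (R (a b.1)) ^ d = (t ∘ a) b.1 := by rw [ht]; rfl
        rw [h3, hπ1]
        simp
      have h3 : δ (x (R (a β)) ^ d) = 0 := by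
        rw [hδ]
        have h4 : x (R (a β)) ^ d = (t ∘ a) β := by rw [ht]; rfl
        rw [h4, hπ2 β (Ne.symm b.2)]
        simp
      rw [h1, hT, h2, h3, mul_zero, sub_zero]
      exact div_ne_zero (mul_ne_zero (ht0 _) (pow_ne_zero _ (h.ne _)))
        (pow_ne_zero _ (pow_ne_zero _ (h.ne _)))
    · have h1 : U b' = x (R (a b'.1)) ^ d / x (R (a β)) ^ d := by rw [← hgoal]
      have h2 : δ (x (R (a b'.1)) ^ d) = 0 := by
        rw [hδ]
        have h3 : x (R (a b'.1)) ^ d = (t ∘ a) b'.1 := by rw [ht]; rfl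
        rw [h3, hπ2 b'.1 fun h0 => hb' (Subtype.ext h0)]
        simp
      have h3 : δ (x (R (a β)) ^ d) = 0 := by
        rw [hδ]
        have h4 : x (R (a β)) ^ d = (t ∘ a) β := by rw [ht]; rfl
        rw [h4, hπ2 β (Ne.symm b.2)]
        simp
      rw [h1, hT, h2, h3, zero_mul, mul_zero, sub_zero, zero_div]

end Pool.Agent.T9h4.DI
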