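import Pool.Agent.T9h4.DI.NegD
import Pool.Agent.T9h4.DI.NegB

/-!
Diagonal intersections: auxiliary facts for the fibration of a partition.
-/

set_option autoImplicit false
set_option linter.overlappingInstances false
set_option linter.unusedSectionVars false

open FF Module Finset Pool.Agent.W602.GT Pool.Agent.W603.LV
open Pool.Agent.Y172 Pool.Agent.Y191

namespace Pool.Agent.T9h4.DI

section

variable {k K : Type} [Field k] [CharZero k] [Field K] [Algebra k K]

/-- the number of independent elements in an algebraic closure -/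
theorem card_le_of_acl {p : ℕ} {z : Fin p → K} (hz : AlgebraicIndependent k z) {ι : Type}
    [Fintype ι] {g : ι → K} (h : ∀ i, z i ∈ acl k (Set.range g)) : p ≤ Fintype.card ι := by
  classical
  by_contra hcon
  push Not at hcon
  obtain ⟨D, hD⟩ := Pool.Agent.Y191.exists_dual hz
  let f : (Fin p → K) →ₗ[K] (ι → K) :=
    { toFun := fun a l => ∑ i, a i * D i (g l)
      map_add' := fun a b => by
        funext l
        simp only [Pi.add_apply, add_mul, sum_add_distrib]
      map_smul' := fun c a => by
        funext l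
        simp only [Pi.smul_apply, smul_eq_mul, RingHom.id_apply, mul_sum, mul_assoc] }
  have h1 : LinearMap.ker f ≠ ⊥ := LinearMap.ker_ne_bot_of_finrank_lt (by
    rw [Module.finrank_fintype_fun_eq_card, Module.finrank_fintype_fun_eq_card, Fintype.card_fin]
    exact hcon)
  obtain ⟨a, ha, ha0⟩ := (Submodule.ne_bot_iff _).1 h1
  have h2 : ∀ l, ∑ i, a i * D i (g l) = 0 := fun l => congrFun (LinearMap.mem_ker.1 ha) l
  have h3 : Kills (∑ i, a i • D i) (acl k (Set.range g)) := by
    refine kills_acl ?_
    rintro _ ⟨l, rfl⟩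
    rw [der_sum]
    exact h2 l
  refine ha0 (funext fun i => ?_)
  have h4 := h3 (z i) (h i)
  rw [der_sum] at h4
  simp only [hD, mul_ite, mul_one, mul_zero, sum_ite_eq', mem_univ, if_true] at h4
  exact h4

omit [CharZero k] in
/-- the ratios of the elements of a finite dimensional space -/
theorem exists_ratios (S : Submodule k K) [FiniteDimensional k S] {t : K} (ht : t ∈ S)
    (ht0 : t ≠ 0) : ∃ (m : ℕ) (g : Fin m → K), m + 1 = finrank k S ∧
      (∀ l, ∃ s ∈ S, g l = s / t) ∧
      ∀ s ∈ S, s / t ∈ IntermediateField.adjoin k (Set.range g) := by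
  have ht1 : (⟨t, ht⟩ : S) ≠ 0 := fun h0 => ht0 (congrArg Subtype.val h0)
  obtain ⟨W, hW⟩ := Submodule.exists_isCompl (Submodule.span k {(⟨t, ht⟩ : S)})
  have h1 := Submodule.finrank_add_eq_of_isCompl hW
  rw [finrank_span_singleton ht1] at h1
  have hWf : Module.Free k W := Module.Free.of_divisionRing k W
  have hWf' : Module.Finite k W := inferInstance
  let b := Module.finBasis k W
  refine ⟨finrank k W, fun l => ((b l : S) : K) / t, by omega, fun l => ⟨_, (b l : S).2, rfl⟩,
    fun s hs => ?_⟩
  have h2 : (⟨s, hs⟩ : S) ∈ Submodule.span k {(⟨t, ht⟩ : S)} ⊔ W := by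
    rw [hW.sup_eq_top]
    exact Submodule.mem_top
  obtain ⟨u, hu, v, hv, huv⟩ := Submodule.mem_sup.1 h2
  obtain ⟨c, hc⟩ := Submodule.mem_span_singleton.1 hu
  have h3 : s = algebraMap k K c * t + (v : K) := by
    have h4 := congrArg (Subtype.val : S → K) huv
    rw [← hc] at h4
    have h5 : c • t + (v : K) = s := h4
    rw [← h5, Algebra.smul_def]
  have h4 : (v : K) / t = ∑ l, algebraMap k K (b.repr ⟨v, hv⟩ l) * (((b l : S) : K) / t) := by
    have h5 : ∑ l, b.repr ⟨v, hv⟩ l • b l = ⟨v, hv⟩ := b.sum_repr _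
    have h6 := congrArg (fun z : W => ((z : S) : K)) h5
    have h7 : ∑ l, b.repr ⟨v, hv⟩ l • ((b l : S) : K) = (v : K) := by
      have h8 : ((W.subtype.comp LinearMap.id : W →ₗ[k] S)) = W.subtype := rfl
      have h9 := congrArg (S.subtype.comp W.subtype) h5
      rw [map_sum] at h9
      simp only [map_smul] at h9
      exact h9
    rw [← h7, sum_div]
    refine sum_congr rfl fun l _ => ?_
    rw [Algebra.smul_def, mul_div_assoc]
  rw [h3, add_div, mul_div_assoc, div_self ht0, mul_one, h4]
  refine add_mem (IntermediateField.algebraMap_mem _ c) (sum_mem fun l _ => ?_)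
  exact mul_mem (IntermediateField.algebraMap_mem _ _)
    (IntermediateField.subset_adjoin k _ ⟨l, rfl⟩)

end

section lin

open MvPolynomial

variable {F : Type} [Field F] {σ : Type} [Fintype σ] [DecidableEq σ]

/-- linear functions -/
noncomputable def lnf (c0 : F) (c : σ → F) : MvPolynomial σ F := C c0 + ∑ b, C (c b) * X b

theorem lnf_aeval {A : Type} [CommRing A] [Algebra F A] (U : σ → A) (c0 : F) (c : σ → F) :
    aeval U (lnf c0 c) = algebraMap F A c0 + ∑ b, algebraMap F A (c b) * U b := by
  unfold lnf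
  simp only [map_add, map_sum, map_mul, aeval_C, aeval_X]

theorem lnf_coeff (c0 : F) (c : σ → F) (b : σ) :
    coeff (Finsupp.single b 1) (lnf c0 c) = c b := by
  unfold lnf
  rw [coeff_add, coeff_C, if_neg, zero_add, coeff_sum, Finset.sum_eq_single b]
  · rw [coeff_C_mul, coeff_X, if_pos rfl, mul_one]
  · intro b' _ hb'
    rw [coeff_C_mul, coeff_X, if_neg, mul_zero]
    exact fun h0 => hb' (Finsupp.single_left_injective one_ne_zero h0)
  · intro h0
    exact absurd (mem_univ b) h0
  · intro h0
    have h1 := DFunLike.congr_fun h0 b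
    simp at h1

theorem lnf_deg_le (c0 : F) (c : σ → F) : (lnf c0 c).totalDegree ≤ 1 := by
  unfold lnf
  refine (totalDegree_add _ _).trans (max_le (by rw [totalDegree_C]; omega) ?_)
  refine totalDegree_finsetSum_le fun b _ => ?_
  refine (totalDegree_mul _ _).trans ?_
  rw [totalDegree_C, totalDegree_X]

theorem lnf_deg {c0 : F} {c : σ → F} (h : ∃ b, c b ≠ 0) : (lnf c0 c).totalDegree = 1 := by
  refine le_antisymm (lnf_deg_le c0 c) ?_
  obtain ⟨b, hb⟩ := h
  have h1 : Finsupp.single b 1 ∈ (lnf c0 c).support := by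
    rw [MvPolynomial.mem_support_iff, lnf_coeff]
    exact hb
  have h2 := le_totalDegree h1
  rwa [Finsupp.sum_single_index rfl] at h2

theorem lnf_irr {c0 : F} {c : σ → F} (h : ∃ b, c b ≠ 0) : Irreducible (lnf c0 c) := by
  refine irreducible_of_totalDegree_eq_one (lnf_deg h) fun x hx => ?_
  obtain ⟨b, hb⟩ := h
  have h1 := hx (Finsupp.single b 1)
  rw [lnf_coeff] at h1
  refine isUnit_iff_ne_zero.2 fun h0 => hb ?_
  rw [h0] at h1
  exact zero_dvd_iff.1 h1

theorem lnf_bd [CharZero F] {c0 : F} {c : σ → F} (h : ∃ b, c b ≠ 0) : bd univ (lnf c0 c) = 1 := by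
  refine le_antisymm (bd_le _ fun m hm => ?_) ?_
  · have h1 := le_totalDegree hm
    rw [lnf_deg h, Finsupp.sum_fintype _ _ fun _ => rfl] at h1
    exact h1
  · obtain ⟨b, hb⟩ := h
    have h1 : Finsupp.single b 1 ∈ (lnf c0 c).support := by
      rw [MvPolynomial.mem_support_iff, lnf_coeff]
      exact hb
    have h2 := le_bd univ h1
    have h3 : ∑ i, (Finsupp.single b 1 : σ →₀ ℕ) i = 1 := by
      rw [Finset.sum_eq_single b]
      · rw [Finsupp.single_eq_same]
      · intro b' _ hb'
        rw [Finsupp.single_eq_of_ne hb']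
      · intro h0
        exact absurd (mem_univ b) h0
    rwa [h3] at h2

end lin

end Pool.Agent.T9h4.DI
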