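import Pool.Agent.T9h4.DI.Form

/-!
Diagonal intersections: existence of pluricanonical forms.
-/

set_option autoImplicit false

open FF Module Finset Matrix Pool.Agent.W603.LV Pool.Agent.W602.GT Pool.Agent.Y191
open Pool.Agent.T9h4.NT

namespace Pool.Agent.T9h4.DI

variable {k K : Type} [Field k] [Field K] [Algebra k K] {w N : ℕ}

/-- the ratios of the `x j` -/
def rat (k : Type) {K : Type} [Field k] [Field K] [Algebra k K] {N : ℕ} (x : Fin N → K) :
    IntermediateField k K := IntermediateField.adjoin k {z | ∃ i j, z = x i / x j}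

/-- the generic point of a diagonal intersection, outside the coordinate hyperplanes -/
structure Dat (k : Type) {K : Type} [Field k] [Field K] [Algebra k K] {N : ℕ} (d w : ℕ)
    (x : Fin N → K) : Prop where
  ne : ∀ j, x j ≠ 0
  gen : rat k x = ⊤
  dim : Algebra.trdeg k K = w
  rk : rk k (fun j => x j ^ d) univ = w + 1

theorem exists_basis {d : ℕ} {x : Fin N → K} (hd : 0 < d) (h : Dat k d w x) :
    ∃ (u : Unit ⊕ Fin w → K) (a : Unit ⊕ Fin w → Fin N), (∀ j, u j = x (a j) ^ d) ∧
      (∀ j, u j ≠ 0) ∧ LinearIndependent k u ∧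
      Submodule.span k (Set.range u) = sp k (fun j => x j ^ d) univ ∧
      IsTranscendenceBasis k (fun j => u (Sum.inr j) / u (Sum.inl ())) := by
  classical
  obtain ⟨κ, a, ha, hsp, hli⟩ := exists_linearIndependent' k (fun j => x j ^ d)
  have hκ : Finite κ := Finite.of_injective a ha
  have := Fintype.ofFinite κ
  have hsp' : sp k (fun j => x j ^ d) univ = Submodule.span k (Set.range fun j => x j ^ d) := by
    unfold sp
    rw [coe_univ, Set.image_univ]
  have hcard : Fintype.card (Unit ⊕ Fin w) = Fintype.card κ := by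
    rw [← finrank_span_eq_card hli, hsp, ← hsp', Fintype.card_sum, Fintype.card_unique,
      Fintype.card_fin]
    change _ = DI.rk k _ univ
    rw [h.rk, add_comm]
  let φ : Unit ⊕ Fin w ≃ κ := Fintype.equivOfCardEq hcard
  obtain ⟨u, hu⟩ : ∃ u : Unit ⊕ Fin w → K, u = fun j => x (a (φ j)) ^ d := ⟨_, rfl⟩
  have hu0 : ∀ j, u j ≠ 0 := fun j => by
    rw [hu]
    exact pow_ne_zero _ (h.ne _)
  have huc : u = ((fun j => x j ^ d) ∘ a) ∘ φ := hu
  have hspan : Submodule.span k (Set.range u) = sp k (fun j => x j ^ d) univ := by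
    rw [huc, φ.surjective.range_comp, hsp, hsp']
  refine ⟨u, fun j => a (φ j), fun j => by rw [hu], hu0, ?_, hspan, ?_⟩
  · rw [huc]
    exact hli.comp _ φ.injective
  obtain ⟨t, ht⟩ : ∃ t : Fin w → K, t = fun j => u (Sum.inr j) / u (Sum.inl ()) := ⟨_, rfl⟩
  rw [← ht]
  have halg : Algebra.IsAlgebraic (Algebra.adjoin k (Set.range t)) K := by
    have h0 : ∀ j, x j ^ d / u (Sum.inl ()) ∈ Algebra.adjoin k (Set.range t) := by
      intro j
      have h1 : x j ^ d ∈ Submodule.span k (Set.range u) := by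
        rw [hspan]
        exact mem_sp (mem_univ j)
      obtain ⟨c, hc⟩ := (Submodule.mem_span_range_iff_exists_fun k).1 h1
      rw [← hc, sum_div]
      refine Subalgebra.sum_mem _ fun i _ => ?_
      rw [smul_div_assoc]
      refine Subalgebra.smul_mem _ ?_ _
      rcases i with i | i
      · rw [div_self (hu0 _)]
        exact Subalgebra.one_mem _
      · refine Algebra.subset_adjoin ⟨i, ?_⟩
        rw [ht]
    let A := Algebra.adjoin k (Set.range t)
    have h1 : ∀ z ∈ rat k x, IsAlgebraic A z := by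
      intro z hz
      unfold rat at hz
      induction hz using IntermediateField.adjoin_induction with
      | mem y hy =>
        obtain ⟨i, j, rfl⟩ := hy
        have h2 : IsAlgebraic A ((x i / x j) ^ d) := by
          have h3 : (x i / x j) ^ d = (x i ^ d / u (Sum.inl ())) * (x j ^ d / u (Sum.inl ()))⁻¹ := by
            have := hu0 (Sum.inl ())
            have := h.ne j
            field_simp
            rw [← mul_pow, div_mul_cancel₀ _ (h.ne j)]
          rw [h3]
          exact (isAlgebraic_algebraMap (⟨_, h0 i⟩ : A)).mul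
            (IsAlgebraic.inv (isAlgebraic_algebraMap (⟨_, h0 j⟩ : A)))
        exact h2.of_pow hd
      | algebraMap c => exact isAlgebraic_algebraMap (algebraMap k A c)
      | add a b _ _ ha hb => exact ha.add hb
      | inv a _ ha => exact ha.inv
      | mul a b _ _ ha hb => exact ha.mul hb
    constructor
    intro z
    refine h1 z ?_
    rw [h.gen]
    exact IntermediateField.mem_top
  refine Algebra.IsAlgebraic.isTranscendenceBasis_of_le_trdeg_of_finite k t ?_
  rw [h.dim, Cardinal.mk_fin]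

variable [CharZero k]

omit [CharZero k] in
theorem fm_ne {Dg : ℕ} {T : Fin N → K} {b : Fin N → ℕ} {Z : Multiset K}
    (hT : ∀ j, T j ≠ 0) (hZ : ∀ z ∈ Z, z ≠ 0) {u : Unit ⊕ Fin w → K} (hu : ∀ j, u j ≠ 0)
    {D : Fin w → Derivation k K K}
    (hD : (Matrix.of fun i j => D i (u (Sum.inr j) / u (Sum.inl ()))) = 1) :
    fm Dg T b Z u D ≠ 0 := by
  unfold fm
  rw [vw_norm D (hu _), hD, det_one, mul_one]
  refine mul_ne_zero (pow_ne_zero _ (pow_ne_zero _ (hu _))) (div_ne_zero ?_ ?_)
  · refine Multiset.prod_ne_zero fun h0 => hZ 0 h0 rfl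
  · exact prod_ne_zero_iff.2 fun j _ => pow_ne_zero _ (hT j)

omit [CharZero k] in
theorem reg_of_log {P : Place k K} {D : Derivation k K K} (h : DerLog P D) : DerReg P D := by
  intro f hf
  by_cases hf0 : f = 0
  · rw [hf0, map_zero]
    exact P.reg_zero
  · have h1 := P.reg_mul hf (h f)
    rwa [mul_div_cancel₀ _ hf0] at h1

/-- **Effectivity.** -/
theorem plur_of_wts {d : ℕ} {x : Fin N → K} (hd : 0 < d) (h : Dat k d w x) {Dg ε : ℕ}
    {b : Fin N → ℕ} {Z : Multiset K} (hw : Wts k Dg ε (fun j => x j ^ d) b Z)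
    (hdε : Dg ≤ ε * d) : PlurGe k K w Dg 0 := by
  obtain ⟨u, a, hua, hu0, -, hspan, htb⟩ := exists_basis hd h
  obtain ⟨D, hD⟩ := exists_dual htb
  have hu : ∀ j, u j ∈ sp k (fun j => x j ^ d) univ := fun j =>
    hspan ▸ Submodule.subset_span ⟨j, rfl⟩
  refine ⟨fun _ => fm Dg (fun j => x j ^ d) b Z u, fun _ => ⟨fm_pluri _ _ _ _ _, ?_, ?_⟩, D, ?_, ?_⟩
  · intro P _ D' hD'
    exact fm_reg P h.ne (fun _ => rfl) hw h.rk hu (fun i => reg_of_log (hD' i)) hdε
  · intro P _ _ D' hD'
    exact fm_reg P h.ne (fun _ => rfl) hw h.rk hu hD' hdε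
  · exact fm_ne (fun j => pow_ne_zero _ (h.ne j)) (fun z hz => (hw.mem z hz).2) hu0 hD
  · rw [algebraicIndependent_empty_type_iff]
    exact (algebraMap k K).injective

/-- **General type.** -/
theorem plur_top_of_wts {d : ℕ} {x : Fin N → K} (hd : 0 < d) (h : Dat k d w x) {Dg ε : ℕ}
    {b : Fin N → ℕ} {Z : Multiset K} (hw : Wts k Dg ε (fun j => x j ^ d) b Z) {m : ℕ}
    (hm : m * Dg + d ≤ m * ε * d) : PlurGe k K w (m * Dg) w := by
  have hmε : 1 ≤ m * ε := by
    refine Nat.pos_of_ne_zero fun h0 => ?_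
    rw [h0, zero_mul] at hm
    omega
  obtain ⟨u, a, hua, hu0, -, hspan, htb⟩ := exists_basis hd h
  obtain ⟨D, hD⟩ := exists_dual htb
  have hu : ∀ j, u j ∈ sp k (fun j => x j ^ d) univ := fun j =>
    hspan ▸ Submodule.subset_span ⟨j, rfl⟩
  have h1 := fm_ne (Dg := Dg) (b := b) (Z := Z) (T := fun j => x j ^ d)
    (fun j => pow_ne_zero _ (h.ne j)) (fun z hz => (hw.mem z hz).2) hu0 hD
  let ω : Unit ⊕ Fin w → (Fin w → Derivation k K K) → K := fun l D' =>
    fm Dg (fun j => x j ^ d) b Z u D' ^ m * (u l / u (Sum.inl ()))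
  have hω : ∀ l, LogSec k K w (m * Dg) (fun _ => False) (ω l) := by
    intro l
    have key : ∀ (P : Place k K) (D' : Fin w → Derivation k K K), (∀ i, DerReg P (D' i)) →
        P.Reg (ω l D') := by
      intro P D' hD'
      have h2 := fm_big P h.ne (fun _ => rfl) hw h.rk hu hD' hm hmε (a l) (a (Sum.inl ()))
      change Ge P 0 (ω l D')
      change Ge P 0 (_ * (u l / u (Sum.inl ())))
      rw [hua l, hua (Sum.inl ())]
      exact h2
    refine ⟨fun M D' => ?_, fun P _ D' hD' => key P D' fun i => reg_of_log (hD' i),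
      fun P _ _ D' hD' => key P D' hD'⟩
    change fm Dg _ b Z u _ ^ m * _ = _ * (fm Dg _ b Z u D' ^ m * _)
    rw [fm_pluri Dg _ b Z u M D', mul_pow, ← pow_mul, mul_comm Dg m]
    ring
  refine ⟨Fin.cases (ω (Sum.inl ())) fun i => ω (Sum.inr i), fun j => ?_, D, ?_, ?_⟩
  · refine Fin.cases ?_ (fun i => ?_) j
    · exact hω _
    · exact hω _
  · change fm Dg _ b Z u D ^ m * _ ≠ 0
    rw [div_self (hu0 _), mul_one]
    exact pow_ne_zero _ h1
  · have h4 : (fun i : Fin w => (Fin.cases (ω (Sum.inl ())) (fun i => ω (Sum.inr i)) i.succ :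
        (Fin w → Derivation k K K) → K) D / ω (Sum.inl ()) D) =
        fun j => u (Sum.inr j) / u (Sum.inl ()) := by
      funext i
      change (fm Dg _ b Z u D ^ m * (u (Sum.inr i) / u (Sum.inl ()))) /
        (fm Dg _ b Z u D ^ m * (u (Sum.inl ()) / u (Sum.inl ()))) = _
      rw [div_self (hu0 _), mul_one]
      have := pow_ne_zero m h1
      field_simp
    have h5 := htb.1
    rw [← h4] at h5
    exact h5

/-- `|d K| ≠ ∅` -/
theorem plur_of_crit {d : ℕ} {x : Fin N → K} (hd : 0 < d) (h : Dat k d w x)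
    (hc : Crit k d (fun j => x j ^ d)) : PlurGe k K w d 0 := by
  have hN : 0 < N := by
    refine Nat.pos_of_ne_zero fun h0 => ?_
    subst h0
    have h1 := h.rk
    have h2 : DI.rk k (fun j => x j ^ d) (univ : Finset (Fin 0)) = 0 := by
      unfold DI.rk sp
      rw [univ_eq_empty, coe_empty, Set.image_empty, Submodule.span_empty, finrank_bot]
    omega
  obtain ⟨b, Z, hs⟩ := exists_sol hd (fun j => pow_ne_zero d (h.ne j)) hc ⟨0, hN⟩
  exact plur_of_wts hd h hs.wts (by rw [one_mul])

/-- the forms of weight `d (d - 1)` -/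
theorem plur_top_of_crit {d : ℕ} {x : Fin N → K} (hd : 0 < d) (h : Dat k (d + 1) w x)
    (hc : Crit k d (fun j => x j ^ (d + 1))) : PlurGe k K w ((d + 1) * d) w := by
  have hN : 0 < N := by
    refine Nat.pos_of_ne_zero fun h0 => ?_
    subst h0
    have h1 := h.rk
    have h2 : DI.rk k (fun j => x j ^ (d + 1)) (univ : Finset (Fin 0)) = 0 := by
      unfold DI.rk sp
      rw [univ_eq_empty, coe_empty, Set.image_empty, Submodule.span_empty, finrank_bot]
    omega
  obtain ⟨b, Z, hs⟩ := exists_sol hd (fun j => pow_ne_zero (d + 1) (h.ne j)) hc ⟨0, hN⟩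
  have hd1 : 0 < d + 1 := by omega
  exact plur_top_of_wts hd1 h hs.wts (le_of_eq (by ring))

end Pool.Agent.T9h4.DI
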