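import Pool.Agent.T9h4.DI.Dim3
import Pool.Agent.T9h4.DI.NegF

/-!
Components of intersections of diagonal hypersurfaces: the inequalities for the partitions of the
coordinates.
-/

set_option autoImplicit false

open FF Module Finset Pool.Agent.W602.GT Pool.Agent.T9h4.NT

namespace Pool.Agent.T9h4.DI

section defs

variable {K : Type} [Field K] [Algebra ℂ K] {n : ℕ}

open Classical in
/-- the indices of the coordinates which do not vanish -/
noncomputable def supp (y : Fin (n + 1) → K) : Finset (Fin (n + 1)) :=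
  univ.filter fun j => y j ≠ 0

/-- The rank of the set `B` of coordinates: the dimension of the complex vector space spanned by the
`d`-th powers of the coordinates `y j`, `j ∈ B`. -/
noncomputable def brk (d : ℕ) (y : Fin (n + 1) → K) (B : Finset (Fin (n + 1))) : ℕ :=
  finrank ℂ (Submodule.span ℂ ((fun j => y j ^ d) '' (B : Set (Fin (n + 1)))))

/-- For every partition `P` of the set of the nonzero coordinates into at least two blocks,
`m (w + 1) + (number of blocks) ≤ m ∑ (ranks of the blocks)`. -/
def Balanced (m d w : ℕ) (y : Fin (n + 1) → K) : Prop :=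
  ∀ P : Finpartition (supp y), 2 ≤ P.parts.card →
    m * (w + 1) + P.parts.card ≤ m * ∑ B ∈ P.parts, brk d y B

end defs

variable {K : Type} [Field K] [Algebra ℂ K] {n d w m : ℕ} {y : Fin (n + 1) → K}

omit [Algebra ℂ K] in
theorem mem_supp {j : Fin (n + 1)} : j ∈ supp y ↔ y j ≠ 0 := by
  unfold supp
  simp

omit [Algebra ℂ K] in
/-- an enumeration of the nonzero coordinates -/
theorem exists_enum (y : Fin (n + 1) → K) : ∃ (N : ℕ) (e : Fin N → Fin (n + 1)),
    Function.Injective e ∧ ∀ j, (∃ i, e i = j) ↔ y j ≠ 0 := by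
  refine ⟨(supp y).card, fun i => ((supp y).equivFin.symm i).1, fun i i' h => ?_, fun j => ?_⟩
  · exact (supp y).equivFin.symm.injective (Subtype.ext h)
  · rw [← mem_supp]
    constructor
    · rintro ⟨i, rfl⟩
      exact ((supp y).equivFin.symm i).2
    · intro hj
      exact ⟨(supp y).equivFin ⟨j, hj⟩, by
        dsimp only
        rw [Equiv.symm_apply_apply]⟩

theorem brk_map {N : ℕ} {e : Fin N → Fin (n + 1)} (he : Function.Injective e)
    (F : Finset (Fin N)) :
    brk d y (F.map ⟨e, he⟩) = rk ℂ (fun i => y (e i) ^ d) F := by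
  unfold brk rk sp
  rw [coe_map, Set.image_image]
  rfl

theorem crit_iff (hw : rk ℂ (fun j => y j ^ d) univ = w + 1) (hd : 0 < d) {N : ℕ}
    {e : Fin N → Fin (n + 1)} (he : Function.Injective e)
    (hey : ∀ j, (∃ i, e i = j) ↔ y j ≠ 0) :
    (rk ℂ (fun i => y (e i) ^ d) univ = w + 1) ∧
      (Crit ℂ m (fun i => y (e i) ^ d) ↔ Balanced m d w y) := by
  classical
  have hrk : rk ℂ (fun i => y (e i) ^ d) univ = w + 1 := by
    have hsp : sp ℂ (fun i => y (e i) ^ d) univ = sp ℂ (fun j => y j ^ d) univ := by
      refine le_antisymm (Submodule.span_mono ?_) (Submodule.span_le.2 ?_)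
      · rintro _ ⟨i, -, rfl⟩
        exact ⟨e i, mem_coe.2 (mem_univ _), rfl⟩
      · rintro _ ⟨j, -, rfl⟩
        by_cases hj : y j = 0
        · simp only [hj, zero_pow hd.ne']
          exact Submodule.zero_mem _
        · obtain ⟨i, rfl⟩ := (hey j).2 hj
          exact Submodule.subset_span ⟨i, mem_coe.2 (mem_univ _), rfl⟩
    rw [← hw]
    unfold rk
    rw [hsp]
  refine ⟨hrk, ?_⟩
  have hes : ∀ i, e i ∈ supp y := fun i => mem_supp.2 ((hey _).1 ⟨i, rfl⟩)
  constructor
  · intro hc P hP
    have h1 : ∀ B : Finset (Fin (n + 1)), ∃ i : Fin N, B ∈ P.parts → e i ∈ B := by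
      intro B
      by_cases hB : B ∈ P.parts
      · obtain ⟨j, hj⟩ := P.nonempty_of_mem_parts hB
        obtain ⟨i, hi⟩ := (hey j).2 (mem_supp.1 (P.le hB hj))
        exact ⟨i, fun _ => by rw [hi]; exact hj⟩
      · have hne : (supp y).Nonempty := by
          rw [nonempty_iff_ne_empty]
          intro h0
          have h2 : P.parts = ∅ := by
            rw [P.parts_eq_empty_iff]
            exact h0
          rw [h2] at hP
          simp at hP
        obtain ⟨j, hj⟩ := hne
        obtain ⟨i, -⟩ := (hey j).2 (mem_supp.1 hj)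
        exact ⟨i, fun h0 => absurd h0 hB⟩
    choose s hs using h1
    let φ : Fin N → Fin N := fun i => s (P.part (e i))
    have hpart : ∀ i, P.part (e i) ∈ P.parts := fun i => P.part_mem.2 (hes i)
    have hφ : ∀ i, P.part (e (φ i)) = P.part (e i) := fun i =>
      P.eq_of_mem_parts (P.part_mem.2 (hes _)) (hpart i) (P.mem_part (hes _)) (hs _ (hpart i))
    have himg : univ.image φ = P.parts.image s := by
      ext i
      simp only [mem_image, mem_univ, true_and]
      constructor
      · rintro ⟨l, rfl⟩
        exact ⟨_, hpart l, rfl⟩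
      · rintro ⟨B, hB, rfl⟩
        refine ⟨s B, ?_⟩
        have h2 : P.part (e (s B)) = B :=
          P.eq_of_mem_parts (P.part_mem.2 (hes _)) hB (P.mem_part (hes _)) (hs _ hB)
        simp only [φ, h2]
    have hsinj : Set.InjOn s (P.parts : Set (Finset (Fin (n + 1)))) := by
      intro B hB B' hB' h2
      exact P.eq_of_mem_parts hB hB' (hs B hB) (by rw [h2]; exact hs B' hB')
    have hcard : (univ.image φ).card = P.parts.card := by
      rw [himg, card_image_of_injOn hsinj]
    have hnc : ∃ i j, φ i ≠ φ j := by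
      by_contra hcon
      push Not at hcon
      have h2 : (univ.image φ).card ≤ 1 := by
        rw [card_le_one]
        intro a ha b hb
        obtain ⟨i, -, rfl⟩ := mem_image.1 ha
        obtain ⟨j, -, rfl⟩ := mem_image.1 hb
        exact hcon i j
      omega
    have h3 := hc φ hnc
    rw [hrk, hcard, himg, sum_image hsinj] at h3
    refine h3.trans (le_of_eq ?_)
    congr 1
    refine sum_congr rfl fun B hB => ?_
    rw [← brk_map he]
    congr 1
    ext j
    simp only [mem_map, mem_filter, mem_univ, true_and, Function.Embedding.coeFn_mk]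
    constructor
    · rintro ⟨i, hi, rfl⟩
      have h4 : P.part (e i) = B :=
        P.eq_of_mem_parts (hpart i) hB (hs _ (hpart i)) (by
          have h5 : s (P.part (e i)) = s B := hi
          rw [h5]
          exact hs B hB)
      rw [← h4]
      exact P.mem_part (hes i)
    · intro hj
      obtain ⟨i, rfl⟩ := (hey j).2 (mem_supp.1 (P.le hB hj))
      refine ⟨i, ?_, rfl⟩
      have h4 : P.part (e i) = B := P.eq_of_mem_parts (hpart i) hB (P.mem_part (hes i)) hj
      simp only [φ, h4]
  · rintro hb φ ⟨i1, i2, hne⟩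
    let blk : Fin N → Finset (Fin (n + 1)) := fun i =>
      (univ.filter fun j => φ j = i).map ⟨e, he⟩
    have hmem : ∀ i j, e j ∈ blk i ↔ φ j = i := by
      intro i j
      simp only [blk, mem_map, mem_filter, mem_univ, true_and, Function.Embedding.coeFn_mk]
      constructor
      · rintro ⟨l, hl, hlj⟩
        rw [← he hlj]
        exact hl
      · exact fun h => ⟨j, h, rfl⟩
    have hinj : Set.InjOn blk (univ.image φ : Finset (Fin N)) := by
      intro i hi i' _ h2
      obtain ⟨j, -, rfl⟩ := mem_image.1 (mem_coe.1 hi)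
      have h3 := (hmem (φ j) j).2 rfl
      rw [h2, hmem] at h3
      exact h3
    let P : Finpartition (supp y) := Finpartition.ofExistsUnique ((univ.image φ).image blk)
      (by
        intro p hp j hj
        obtain ⟨i, -, rfl⟩ := mem_image.1 hp
        simp only [blk, mem_map, mem_filter, mem_univ, true_and,
          Function.Embedding.coeFn_mk] at hj
        obtain ⟨l, -, rfl⟩ := hj
        exact hes l)
      (by
        intro j hj
        obtain ⟨l, rfl⟩ := (hey j).2 (mem_supp.1 hj)
        refine ⟨blk (φ l), ⟨mem_image_of_mem _ (mem_image_of_mem _ (mem_univ _)),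
          (hmem _ _).2 rfl⟩, ?_⟩
        rintro B ⟨hB, hlB⟩
        obtain ⟨i, -, rfl⟩ := mem_image.1 hB
        rw [(hmem _ _).1 hlB])
      (by
        intro h0
        obtain ⟨i, hi, h2⟩ := mem_image.1 h0
        obtain ⟨j, -, rfl⟩ := mem_image.1 hi
        have h3 := (hmem (φ j) j).2 rfl
        rw [h2] at h3
        exact absurd h3 (notMem_empty _))
    have hPp : P.parts = (univ.image φ).image blk := rfl
    have hcard : P.parts.card = (univ.image φ).card := by
      rw [hPp, card_image_of_injOn hinj]
    have h2 : 2 ≤ P.parts.card := by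
      rw [hcard]
      have h1 : ({φ i1, φ i2} : Finset (Fin N)) ⊆ univ.image φ := by
        intro i hi
        rcases mem_insert.1 hi with rfl | hi
        · exact mem_image_of_mem _ (mem_univ _)
        · rw [mem_singleton.1 hi]
          exact mem_image_of_mem _ (mem_univ _)
      have h2 := card_le_card h1
      rwa [card_pair hne] at h2
    have h3 := hb P h2
    rw [hcard, hPp, sum_image hinj] at h3
    rw [hrk]
    refine h3.trans (le_of_eq ?_)
    congr 1
    exact sum_congr rfl fun i _ => brk_map he _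

/-- the data of a component -/
theorem exists_dat (hd : 0 < d) {ι : Type} {F : ι → MvPolynomial (Fin (n + 1)) ℂ}
    (hF : ∀ e, IsDiag d (F e)) (hy : SubVar F K w y) (hcomp : IsComponent F y) :
    ∃ (N : ℕ) (x : Fin N → K), Dat ℂ d w x ∧
      ∀ m, Crit ℂ m (fun i => x i ^ d) ↔ Balanced m d w y := by
  obtain ⟨N, e, he, hey⟩ := exists_enum y
  have hw := rk_of_comp hd hF hy hcomp
  have h1 := fun m => crit_iff (m := m) hw hd he hey
  refine ⟨N, fun i => y (e i), ⟨fun i => (hey _).1 ⟨i, rfl⟩, ?_, hy.dim, (h1 0).1⟩,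
    fun m => (h1 m).2⟩
  rw [eq_top_iff, ← hy.gen]
  refine IntermediateField.adjoin_le_iff.2 ?_
  rintro _ ⟨i, j, hj, rfl⟩
  obtain ⟨j', rfl⟩ := (hey j).2 hj
  by_cases hi : y i = 0
  · rw [hi, zero_div]
    exact zero_mem _
  · obtain ⟨i', rfl⟩ := (hey i).2 hi
    exact IntermediateField.subset_adjoin ℂ _ ⟨i', j', rfl⟩

/-- **Components of intersections of diagonal hypersurfaces.** -/
theorem main (hd : 2 ≤ d) {ι : Type} {F : ι → MvPolynomial (Fin (n + 1)) ℂ}
    (hF : ∀ e, IsDiag d (F e)) (hy : SubVar F K w y) (hcomp : IsComponent F y) :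
    (Psef ℂ K w (fun _ => False) ↔ Balanced d d w y) ∧
      (Psef ℂ K w (fun _ => False) → PlurGe ℂ K w d 0) ∧
      (Balanced (d - 1) d w y → PlurGe ℂ K w (d * (d - 1)) w) := by
  obtain ⟨N, x, hx, hc⟩ := exists_dat (by omega) hF hy hcomp
  have h1 : Balanced d d w y → PlurGe ℂ K w d 0 := fun h =>
    plur_of_crit (by omega) hx ((hc d).2 h)
  have h2 : Psef ℂ K w (fun _ => False) → Balanced d d w y := by
    intro hp
    by_contra hcon
    exact not_psef_of_not_crit hd hx (fun h => hcon ((hc d).1 h)) hp
  refine ⟨⟨h2, fun h => psef_of_kodGe ⟨d, by omega, h1 h⟩⟩, fun hp => h1 (h2 hp), fun h => ?_⟩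
  obtain ⟨m, rfl⟩ : ∃ m, d = m + 1 := ⟨d - 1, by omega⟩
  rw [Nat.add_sub_cancel] at h ⊢
  exact plur_top_of_crit (by omega) hx ((hc m).2 h)

end Pool.Agent.T9h4.DI
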